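import Pool.Agent.Lib.MP_16285c_agX.HS.Spec

/-!
# HS/Base: heights in `k` from absolute values of `E`
-/

set_option autoImplicit false

namespace Pool.Agent.Lib.MP_16285c_agX.HS

open Pool.Agent.Lib.MP_16285c_ag

private theorem isAlg_iff {k E : Type} [Field k] [Field E] (j : E →+* k) (x : k) :
    IsAlgebraic j.fieldRange x ↔ @IsAlgebraic E k _ _ j.toAlgebra x := by
  let := j.toAlgebra
  exact isAlgebraic_ringHom_iff_of_comp_eq (RingEquiv.ofBijective j.rangeRestrictField
    j.rangeRestrictField_bijective) (RingHom.id k) Function.injective_id rfl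

theorem tBase (hHt : StmtHt) (hPlf : StmtPlf) (hLft : StmtLft) : StmtBase := by
  intro k _ _ _ E _ j A hA
  let : Algebra E k := j.toAlgebra
  have hE : CharZero E := RingHom.charZero j
  let C : IntermediateField E k := algebraicClosure E k
  let Ω : Subfield k := C.toSubfield
  let iA : Algebra E Ω := inferInstanceAs (Algebra E C)
  have iC : IsAlgClosure E Ω := (inferInstance : IsAlgClosure E (algebraicClosure E k))
  have : IsAlgClosed Ω := iC.isAlgClosed
  have : Algebra.IsAlgebraic E Ω := iC.isAlgebraic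
  have : IsGalois E Ω := inferInstance
  obtain ⟨Q, hQ⟩ := hPlf E Ω A hA
  obtain ⟨h, h1, h2⟩ := hHt E Ω Q
  have hmem : ∀ x : k, x ∈ Ω ↔ IsAlgebraic j.fieldRange x := by
    intro x
    rw [isAlg_iff]
    exact mem_algebraicClosure_iff
  have hj : ∀ x : E, ((algebraMap E Ω x : Ω) : k) = j x := fun x => rfl
  refine ⟨Ω, h, ?_, fun x hx => (hmem x).1 hx, fun x hx => (hmem x).2 hx, ?_, ?_⟩
  · rintro _ ⟨x, rfl⟩
    exact (algebraMap E Ω x).2
  · intro F _ ι ι' hF m _ a
    obtain ⟨g, hg⟩ := hLft E Ω F ι ι' fun x => by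
      obtain ⟨y, hy, hy'⟩ := hF (j x) ⟨x, rfl⟩
      exact ⟨y, Subtype.ext hy, Subtype.ext hy'⟩
    rw [← h1 g m fun i => ι (a i)]
    simp only [hg]
  · intro y z hz
    have e : z = algebraMap E Ω y := Subtype.ext hz
    rw [e, h2, hQ]

end Pool.Agent.Lib.MP_16285c_agX.HS
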