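import Pool.Agent.Lib.MP_16285c_agX.HS.Spec

/-!
# Absolute heights: finiteness of the local heights (helper42)
-/

set_option autoImplicit false

namespace Pool.Agent.Lib.MP_16285c_agX.HS

open Pool.Agent.Lib.MP_16285c_ag

theorem tFs (hLA : StmtLA) : StmtFs := by
  intro E Ω _ _ _ Q ι _ a
  have hfin : (⋃ k : {k : ι // a k ≠ 0}, {j | ∃ g : Ω ≃ₐ[E] Ω, Q.v j (g (a k.1)) ≠ 1}).Finite :=
    Set.finite_iUnion fun k => Q.fin (a k.1) k.2
  refine hfin.subset ?_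
  rintro j ⟨g, hg⟩
  by_contra hj
  apply hg
  refine (hLA Ω (Q.v j)).2.2.2.2.1 ι (fun k => g (a k)) fun k => ?_
  by_cases hk : a k = 0
  · left; rw [hk, map_zero]
  · right
    by_contra h
    exact hj (Set.mem_iUnion.2 ⟨⟨k, hk⟩, g, h⟩)

end Pool.Agent.Lib.MP_16285c_agX.HS
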