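import Pool.Agent.Lib.MP_16285c_agX.HS.Spec

/-!
# ZD3X, section HS: sums of local heights (task 26474, helper12)
-/

set_option autoImplicit false

namespace Pool.Agent.Lib.MP_16285c_agX.HS

open Pool.Agent.Lib.MP_16285c_ag

namespace GAM

variable {E Ω : Type} [Field E] [Field Ω] [Algebra E Ω]

theorem sup_fin (hFs : StmtFs) (Q : PlF E Ω) {ι : Type} [Finite ι] (a : ι → Ω) :
    (Function.support fun j => lh (Q.v j) a).Finite := by
  refine (hFs E Ω Q ι a).subset ?_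
  intro j hj
  exact ⟨AlgEquiv.refl, hj⟩

theorem lh_unit (w : AbsoluteValue Ω ℝ) (c : Ω) : lh w (fun _ : Unit => c) = Real.log (w c) := by
  unfold lh
  rw [ciSup_unique]

end GAM

open GAM

theorem tGA (hLA : StmtLA) (hFs : StmtFs) : StmtGA := by
  intro E Ω _ _ _ Q
  have hcomp : ∀ (ι κ : Type) [Finite ι] [Finite κ] (e : κ → ι) (a : ι → Ω), a ∘ e ≠ 0 →
      hh Q (a ∘ e) ≤ hh Q a := by
    intro ι κ _ _ e a h
    refine add_le_add (Finset.sum_le_sum fun i _ => (hLA Ω (Q.w i)).2.1 ι κ e a h) ?_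
    exact finsum_le_finsum' (sup_fin hFs Q _) (sup_fin hFs Q _) fun j => (hLA Ω (Q.v j)).2.1 ι κ e a h
  have htens : ∀ (ι κ : Type) [Finite ι] [Finite κ] (a : ι → Ω) (b : κ → Ω), a ≠ 0 → b ≠ 0 →
      hh Q (fun t : ι × κ => a t.1 * b t.2) = hh Q a + hh Q b := by
    intro ι κ _ _ a b ha hb
    unfold hh
    have h1 : ∀ i, lh (Q.w i) (fun t : ι × κ => a t.1 * b t.2) = lh (Q.w i) a + lh (Q.w i) b :=
      fun i => (hLA Ω (Q.w i)).2.2.1 ι κ a b ha hb
    have h2 : ∀ j, lh (Q.v j) (fun t : ι × κ => a t.1 * b t.2) = lh (Q.v j) a + lh (Q.v j) b :=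
      fun j => (hLA Ω (Q.v j)).2.2.1 ι κ a b ha hb
    simp only [h1, h2]
    rw [Finset.sum_add_distrib, finsum_add_distrib (sup_fin hFs Q a) (sup_fin hFs Q b)]
    ring
  refine ⟨?_, hcomp, htens, ?_, ?_, ?_⟩
  · intro ι _
    unfold hh
    simp only [fun i => (hLA Ω (Q.w i)).1 ι, fun j => (hLA Ω (Q.v j)).1 ι]
    simp
  · intro ι _ a m
    unfold hh
    simp only [fun i => (hLA Ω (Q.w i)).2.2.2.1 ι a m, fun j => (hLA Ω (Q.v j)).2.2.2.1 ι a m]
    rw [← Finset.mul_sum, ← mul_finsum' _ _ (sup_fin hFs Q a), mul_add]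
  · intro c hc ι _ a ha
    have hca : c • a ≠ 0 := smul_ne_zero hc ha
    have hc' : (fun _ : Unit => c) ≠ 0 := fun h => hc (congrFun h ())
    rw [← htens Unit ι (fun _ => c) a hc' ha]
    refine le_antisymm ?_ ?_
    · exact hcomp (Unit × ι) ι (fun i => ((), i)) (fun t : Unit × ι => c * a t.2) hca
    · have h3 : (fun t : Unit × ι => c * a t.2) ≠ 0 := by
        intro h
        apply hca
        funext i
        exact congrFun h ((), i)
      exact hcomp ι (Unit × ι) Prod.snd (c • a) h3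
  · intro c hc
    unfold hh
    simp only [lh_unit]
    exact Q.pf c hc

end Pool.Agent.Lib.MP_16285c_agX.HS
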