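import Pool.Agent.Lib.MP_16285c_agX.HS.Spec

/-!
# ZD3X, section HS: sums of local heights, second part (task 26475, helper36)
-/

set_option autoImplicit false

namespace Pool.Agent.Lib.MP_16285c_agX.HS

open Pool.Agent.Lib.MP_16285c_ag

namespace GBM

variable {E Ω : Type} [Field E] [Field Ω] [Algebra E Ω]

theorem sup_fin (hFs : StmtFs) (Q : PlF E Ω) {ι : Type} [Finite ι] (a : ι → Ω) :
    (Function.support fun j => lh (Q.v j) a).Finite := by
  refine (hFs E Ω Q ι a).subset ?_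
  intro j hj
  exact ⟨AlgEquiv.refl, hj⟩

theorem lh_unit (w : AbsoluteValue Ω ℝ) (c : Ω) : lh w (fun _ : Unit => c) = Real.log (w c) := by
  unfold lh
  rw [ciSup_unique]

theorem sup_add {J : Type} {f g : J → ℝ} (hf : (Function.support f).Finite)
    (hg : (Function.support g).Finite) : (Function.support fun j => f j + g j).Finite :=
  (hf.union hg).subset (Function.support_add f g)

end GBM

open GBM

theorem tGB (hLA : StmtLA) (hFs : StmtFs) (hTrn : StmtTrn) (hLB : StmtLB) (hLC : StmtLC) :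
    StmtGB := by
  intro E Ω _ _ _ Q
  have _ := hLA
  refine ⟨?_, ?_, ?_⟩
  · intro ι κ _ _ A a h
    have h1 : ∑ i, lh (Q.w i) (fun j => ∑ i, A j i * a i) ≤
        ∑ i, lh (Q.w i) (fun t : κ × ι => A t.1 t.2) + ∑ i, lh (Q.w i) a +
          Fintype.card Q.I * Real.log (max (Fintype.card ι : ℝ) 1) := by
      have h2 := Finset.sum_le_sum fun i (_ : i ∈ (Finset.univ : Finset Q.I)) =>
        (hLB Ω (Q.w i) _ (hTrn Ω (Q.w i)).1).1 ι κ A a h
      simpa only [Finset.sum_add_distrib, Finset.sum_const, Finset.card_univ, nsmul_eq_mul] using h2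
    have h3 : ∑ᶠ j, lh (Q.v j) (fun j => ∑ i, A j i * a i) ≤
        ∑ᶠ j, lh (Q.v j) (fun t : κ × ι => A t.1 t.2) + ∑ᶠ j, lh (Q.v j) a := by
      rw [← finsum_add_distrib (sup_fin hFs Q _) (sup_fin hFs Q a)]
      refine finsum_le_finsum' (sup_fin hFs Q _) (sup_add (sup_fin hFs Q _) (sup_fin hFs Q a))
        fun j => ?_
      have h4 := (hLB Ω (Q.v j) _ ((hTrn Ω (Q.v j)).2 (Q.na j))).1 ι κ A a h
      rwa [Real.log_one, add_zero] at h4
    unfold hh
    linarith
  · intro d c u hc h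
    have h1 : ∑ i, lh (Q.w i) ![1, u] + ∑ i, lh (Q.w i) (fun _ : Unit => c (Fin.last d)) ≤
        ∑ i, lh (Q.w i) c + Fintype.card Q.I * Real.log (max (d : ℝ) 1) := by
      have h2 := Finset.sum_le_sum fun i (_ : i ∈ (Finset.univ : Finset Q.I)) =>
        (hLB Ω (Q.w i) _ (hTrn Ω (Q.w i)).1).2 d c u hc h
      simp only [lh_unit]
      simpa only [Finset.sum_add_distrib, Finset.sum_const, Finset.card_univ, nsmul_eq_mul] using h2
    have h3 : ∑ᶠ j, lh (Q.v j) ![1, u] + ∑ᶠ j, lh (Q.v j) (fun _ : Unit => c (Fin.last d)) ≤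
        ∑ᶠ j, lh (Q.v j) c := by
      rw [← finsum_add_distrib (sup_fin hFs Q _) (sup_fin hFs Q _)]
      refine finsum_le_finsum' (sup_add (sup_fin hFs Q _) (sup_fin hFs Q _)) (sup_fin hFs Q _)
        fun j => ?_
      have h4 := (hLB Ω (Q.v j) _ ((hTrn Ω (Q.v j)).2 (Q.na j))).2 d c u hc h
      rw [Real.log_one, add_zero] at h4
      rwa [lh_unit]
    unfold hh
    linarith
  · intro d u
    have h1 : ∑ i, lh (Q.w i) (cf u) ≤
        ∑ i, ∑ j, lh (Q.w i) ![1, u j] + Fintype.card Q.I * (d * Real.log 2) := by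
      have h2 := Finset.sum_le_sum fun i (_ : i ∈ (Finset.univ : Finset Q.I)) =>
        hLC Ω (Q.w i) _ (hTrn Ω (Q.w i)).1 d u
      have h5 : max ((2 : ℕ) : ℝ) 1 = 2 := by norm_num
      simpa only [Finset.sum_add_distrib, Finset.sum_const, Finset.card_univ, nsmul_eq_mul, h5]
        using h2
    have h3 : ∑ᶠ k, lh (Q.v k) (cf u) ≤ ∑ j, ∑ᶠ k, lh (Q.v k) ![1, u j] := by
      rw [← finsum_sum_comm Finset.univ (fun k j => lh (Q.v k) ![1, u j])
        fun j _ => sup_fin hFs Q _]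
      refine finsum_le_finsum' (sup_fin hFs Q _) ?_ fun k => ?_
      · refine (Set.finite_iUnion fun j : Fin d => sup_fin hFs Q ![1, u j]).subset ?_
        intro k hk
        by_contra h
        apply hk
        refine Finset.sum_eq_zero fun j _ => ?_
        by_contra h'
        exact h (Set.mem_iUnion.2 ⟨j, h'⟩)
      · have h4 := hLC Ω (Q.v k) _ ((hTrn Ω (Q.v k)).2 (Q.na k)) d u
        rwa [Real.log_one, mul_zero, add_zero] at h4
    unfold hh
    rw [Finset.sum_comm] at h1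
    rw [Finset.sum_add_distrib]
    linarith

end Pool.Agent.Lib.MP_16285c_agX.HS
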