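import Pool.Agent.Lib.MP_16285c_agX.HS.Spec

/-!
# Absolute heights: assembly of the height structure (HS/Ht)
-/

set_option autoImplicit false

namespace Pool.Agent.Lib.MP_16285c_agX.HS

open Pool.Agent.Lib.MP_16285c_ag

namespace HtM

variable {E Ω : Type} [Field E] [Field Ω] [Algebra E Ω]

/-- The conjugate tuple. -/
def cj {ι : Type} (a : ι → Ω) (g : Ω ≃ₐ[E] Ω) : ι → Ω := fun k => g⁻¹ (a k)

/-- The sum of the local heights of the conjugate tuples. -/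
noncomputable def FF (Q : PlF E Ω) {ι : Type} (a : ι → Ω) (g : Ω ≃ₐ[E] Ω) : ℝ :=
  hh Q fun k => g⁻¹ (a k)

/-- The height. -/
noncomputable def HH (Q : PlF E Ω) (μ : Mn E Ω) {ι : Type} (a : ι → Ω) : ℝ := μ.M (FF Q a)

theorem cFF (Q : PlF E Ω) (μ : Mn E Ω) {ι : Type} [Finite ι] (a : ι → Ω) : μ.C (FF Q a) :=
  μ.tup ι a fun b => hh Q b

theorem cj_ne {ι : Type} (a : ι → Ω) (ha : a ≠ 0) (g : Ω ≃ₐ[E] Ω) :
    (fun k => g⁻¹ (a k)) ≠ 0 := by
  intro h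
  apply ha
  funext k
  have h1 : g⁻¹ (a k) = 0 := congrFun h k
  exact (map_eq_zero_iff _ (g⁻¹).injective).mp h1

theorem H_zero (hGA : StmtGA) (Q : PlF E Ω) (μ : Mn E Ω) {ι : Type} [Finite ι] :
    HH Q μ (0 : ι → Ω) = 0 := by
  have h : FF Q (0 : ι → Ω) = fun _ => (0 : ℝ) := by
    funext g
    have h1 : (fun k => g⁻¹ ((0 : ι → Ω) k)) = (0 : ι → Ω) := by
      funext k
      show g⁻¹ (0 : Ω) = 0
      exact map_zero (g⁻¹)
    unfold FF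
    rw [h1]
    exact (hGA E Ω Q).1 ι
  unfold HH
  rw [h]
  exact (μ.cst 0).2

theorem H_comp' (hGA : StmtGA) (Q : PlF E Ω) (μ : Mn E Ω) {ι κ : Type} [Finite ι] [Finite κ]
    (e : κ → ι) (a : ι → Ω) (h : a ∘ e ≠ 0) : HH Q μ (a ∘ e) ≤ HH Q μ a := by
  refine μ.mono _ _ (cFF Q μ _) (cFF Q μ _) fun g => ?_
  exact (hGA E Ω Q).2.1 ι κ e (fun k => g⁻¹ (a k)) (cj_ne (a ∘ e) h g)

theorem H_nonneg [IsGalois E Ω] (hGA : StmtGA) (hPF : StmtPF) (Q : PlF E Ω) (μ : Mn E Ω) {ι : Type}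
    [Finite ι] (a : ι → Ω) : 0 ≤ HH Q μ a := by
  by_cases ha : a = 0
  · rw [ha, H_zero hGA Q μ]
  · obtain ⟨k, hk⟩ := Function.ne_iff.mp ha
    have hk' : a k ≠ 0 := hk
    have h1 : HH Q μ (a ∘ fun _ : Unit => k) = 0 := hPF E Ω Q μ (a k) hk'
    have h2 : a ∘ (fun _ : Unit => k) ≠ 0 := fun h => hk' (congrFun h ())
    rw [← h1]
    exact H_comp' hGA Q μ _ a h2

theorem H_comp [IsGalois E Ω] (hGA : StmtGA) (hPF : StmtPF) (Q : PlF E Ω) (μ : Mn E Ω)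
    {ι κ : Type} [Finite ι] [Finite κ] (e : κ → ι) (a : ι → Ω) :
    HH Q μ (a ∘ e) ≤ HH Q μ a := by
  by_cases h : a ∘ e = 0
  · rw [h, H_zero hGA Q μ]
    exact H_nonneg hGA hPF Q μ a
  · exact H_comp' hGA Q μ e a h

theorem H_smul [IsGalois E Ω] (hGA : StmtGA) (hPF : StmtPF) (Q : PlF E Ω) (μ : Mn E Ω) {ι : Type}
    [Finite ι] (c : Ω) (a : ι → Ω) (hc : c ≠ 0) : HH Q μ (c • a) = HH Q μ a := by
  by_cases ha : a = 0
  · rw [ha, smul_zero]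
  · have h : FF Q (c • a) = fun g => FF Q (fun _ : Unit => c) g + FF Q a g := by
      funext g
      have h1 : (fun k => g⁻¹ ((c • a) k)) = (g⁻¹ c) • (fun k => g⁻¹ (a k)) := by
        funext k
        show g⁻¹ (c * a k) = g⁻¹ c * g⁻¹ (a k)
        exact map_mul (g⁻¹) _ _
      have h2 : g⁻¹ c ≠ 0 := fun h => hc ((map_eq_zero_iff _ (g⁻¹).injective).mp h)
      unfold FF
      rw [h1]
      exact (hGA E Ω Q).2.2.2.2.1 (g⁻¹ c) h2 ι _ (cj_ne a ha g)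
    have h3 : μ.M (FF Q fun _ : Unit => c) = 0 := hPF E Ω Q μ c hc
    unfold HH
    rw [h, μ.add _ _ (cFF Q μ _) (cFF Q μ _), h3, zero_add]

theorem H_tens (hGA : StmtGA) (Q : PlF E Ω) (μ : Mn E Ω) {ι κ : Type} [Finite ι] [Finite κ]
    (a : ι → Ω) (b : κ → Ω) (ha : a ≠ 0) (hb : b ≠ 0) :
    HH Q μ (fun t : ι × κ => a t.1 * b t.2) = HH Q μ a + HH Q μ b := by
  have h : FF Q (fun t : ι × κ => a t.1 * b t.2) = fun g => FF Q a g + FF Q b g := by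
    funext g
    have h1 : (fun t : ι × κ => g⁻¹ (a t.1 * b t.2)) =
        fun t : ι × κ => (fun k => g⁻¹ (a k)) t.1 * (fun k => g⁻¹ (b k)) t.2 := by
      funext t
      exact map_mul (g⁻¹) (a t.1) (b t.2)
    unfold FF
    rw [h1]
    exact (hGA E Ω Q).2.2.1 ι κ (fun k => g⁻¹ (a k)) (fun k => g⁻¹ (b k)) (cj_ne a ha g)
      (cj_ne b hb g)
  unfold HH
  rw [h, μ.add _ _ (cFF Q μ _) (cFF Q μ _)]

theorem M_nat (μ : Mn E Ω) (f : (Ω ≃ₐ[E] Ω) → ℝ) (hf : μ.C f) (m : ℕ) :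
    μ.C (fun g => (m : ℝ) * f g) ∧ μ.M (fun g => (m : ℝ) * f g) = m * μ.M f := by
  induction m with
  | zero =>
    have h : (fun g => ((0 : ℕ) : ℝ) * f g) = fun _ => (0 : ℝ) := by
      funext g
      rw [Nat.cast_zero, zero_mul]
    rw [h, Nat.cast_zero, zero_mul]
    exact μ.cst 0
  | succ m ih =>
    have h : (fun g => ((m + 1 : ℕ) : ℝ) * f g) = fun g => (m : ℝ) * f g + f g := by
      funext g
      push_cast
      ring
    rw [h]
    refine ⟨μ.cadd _ _ ih.1 hf, ?_⟩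
    rw [μ.add _ _ ih.1 hf, ih.2]
    push_cast
    ring

theorem M_sum (μ : Mn E Ω) {J : Type} (s : Finset J) (f : J → (Ω ≃ₐ[E] Ω) → ℝ)
    (hf : ∀ j, μ.C (f j)) :
    μ.C (fun g => ∑ j ∈ s, f j g) ∧ μ.M (fun g => ∑ j ∈ s, f j g) = ∑ j ∈ s, μ.M (f j) := by
  classical
  induction s using Finset.induction_on with
  | empty =>
    simp only [Finset.sum_empty]
    exact μ.cst 0
  | insert j s hj ih =>
    simp only [Finset.sum_insert hj]
    exact ⟨μ.cadd _ _ (hf j) ih.1, by rw [μ.add _ _ (hf j) ih.1, ih.2]⟩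

theorem H_pow (hGA : StmtGA) (Q : PlF E Ω) (μ : Mn E Ω) {ι : Type} [Finite ι] (a : ι → Ω)
    (m : ℕ) : HH Q μ (fun i => a i ^ m) = m * HH Q μ a := by
  have h : FF Q (fun i => a i ^ m) = fun g => (m : ℝ) * FF Q a g := by
    funext g
    have h1 : (fun i => g⁻¹ (a i ^ m)) = fun i => (fun k => g⁻¹ (a k)) i ^ m := by
      funext i
      exact map_pow (g⁻¹) (a i) m
    unfold FF
    rw [h1]
    exact (hGA E Ω Q).2.2.2.1 ι _ m
  unfold HH
  rw [h]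
  exact (M_nat μ _ (cFF Q μ a) m).2

theorem H_lin [IsGalois E Ω] (hGA : StmtGA) (hGB : StmtGB) (hPF : StmtPF) (Q : PlF E Ω)
    (μ : Mn E Ω) {ι κ : Type} [Fintype ι] [Finite κ] (A : κ → ι → Ω) :
    ∃ C : ℝ, ∀ a : ι → Ω, HH Q μ (fun j => ∑ i, A j i * a i) ≤ HH Q μ a + C := by
  set c₀ : ℝ := Fintype.card Q.I * Real.log (max (Fintype.card ι : ℝ) 1) with hc₀
  refine ⟨max 0 (HH Q μ (fun t : κ × ι => A t.1 t.2) + c₀), fun a => ?_⟩
  by_cases h : (fun j => ∑ i, A j i * a i) = 0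
  · rw [h, H_zero hGA Q μ]
    exact add_nonneg (H_nonneg hGA hPF Q μ a) (le_max_left _ _)
  · have hC1 : μ.C fun g => FF Q (fun t : κ × ι => A t.1 t.2) g + FF Q a g :=
      μ.cadd _ _ (cFF Q μ _) (cFF Q μ _)
    have hC : μ.C fun g => (FF Q (fun t : κ × ι => A t.1 t.2) g + FF Q a g) + c₀ :=
      μ.cadd _ _ hC1 (μ.cst c₀).1
    have h1 : HH Q μ (fun j => ∑ i, A j i * a i) ≤
        μ.M fun g => (FF Q (fun t : κ × ι => A t.1 t.2) g + FF Q a g) + c₀ := by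
      refine μ.mono _ _ (cFF Q μ _) hC fun g => ?_
      have h2 : (fun j => g⁻¹ (∑ i, A j i * a i)) =
          fun j => ∑ i, (fun j i => g⁻¹ (A j i)) j i * (fun k => g⁻¹ (a k)) i := by
        funext j
        rw [map_sum]
        exact Finset.sum_congr rfl fun i _ => map_mul (g⁻¹) (A j i) (a i)
      have h3 := cj_ne (E := E) _ h g
      unfold FF
      rw [h2] at h3 ⊢
      exact (hGB E Ω Q).1 ι κ (fun j i => g⁻¹ (A j i)) (fun k => g⁻¹ (a k)) h3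
    rw [μ.add _ _ hC1 (μ.cst c₀).1, μ.add _ _ (cFF Q μ _) (cFF Q μ _), (μ.cst c₀).2] at h1
    have h4 := le_max_right 0 (HH Q μ (fun t : κ × ι => A t.1 t.2) + c₀)
    have h5 : μ.M (FF Q fun t : κ × ι => A t.1 t.2) = HH Q μ (fun t : κ × ι => A t.1 t.2) := rfl
    have h6 : μ.M (FF Q a) = HH Q μ a := rfl
    rw [h5, h6] at h1
    linarith

theorem pair_eq (u : Ω) (g : Ω ≃ₐ[E] Ω) :
    (fun k => g⁻¹ ((![1, u] : Fin 2 → Ω) k)) = ![1, g⁻¹ u] := by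
  funext k
  fin_cases k
  · exact map_one (g⁻¹)
  · rfl

theorem H_root [IsGalois E Ω] (hGB : StmtGB) (hPF : StmtPF) (Q : PlF E Ω)
    (μ : Mn E Ω) (d : ℕ) : ∃ C : ℝ, ∀ (c : Fin (d + 1) → Ω) (u : Ω), c (Fin.last d) ≠ 0 →
      ∑ i, c i * u ^ (i : ℕ) = 0 → HH Q μ ![1, u] ≤ HH Q μ c + C := by
  set c₀ : ℝ := Fintype.card Q.I * Real.log (max (d : ℝ) 1) with hc₀
  refine ⟨c₀, fun c u hc hu => ?_⟩
  have hC1 : μ.C fun g => FF Q ![1, u] g + FF Q (fun _ : Unit => c (Fin.last d)) g :=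
    μ.cadd _ _ (cFF Q μ _) (cFF Q μ _)
  have hC2 : μ.C fun g => FF Q c g + c₀ := μ.cadd _ _ (cFF Q μ _) (μ.cst c₀).1
  have h1 : μ.M (fun g => FF Q ![1, u] g + FF Q (fun _ : Unit => c (Fin.last d)) g) ≤
      μ.M fun g => FF Q c g + c₀ := by
    refine μ.mono _ _ hC1 hC2 fun g => ?_
    have h2 : (fun i => g⁻¹ (c i)) (Fin.last d) ≠ 0 :=
      fun h => hc ((map_eq_zero_iff _ (g⁻¹).injective).mp h)
    have h3 : ∑ i, (fun i => g⁻¹ (c i)) i * (g⁻¹ u) ^ (i : ℕ) = 0 := by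
      have h4 : g⁻¹ (∑ i, c i * u ^ (i : ℕ)) = g⁻¹ 0 := congrArg (fun z => g⁻¹ z) hu
      rw [map_sum, map_zero] at h4
      rw [← h4]
      refine Finset.sum_congr rfl fun i _ => ?_
      rw [map_mul, map_pow]
    have h5 := (hGB E Ω Q).2.1 d (fun i => g⁻¹ (c i)) (g⁻¹ u) h2 h3
    unfold FF
    rw [pair_eq u g]
    exact h5
  rw [μ.add _ _ (cFF Q μ _) (cFF Q μ _), μ.add _ _ (cFF Q μ _) (μ.cst c₀).1, (μ.cst c₀).2] at h1
  have h6 : μ.M (FF Q fun _ : Unit => c (Fin.last d)) = 0 := hPF E Ω Q μ _ hc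
  rw [h6, add_zero] at h1
  exact h1

theorem cf_map (g : Ω ≃ₐ[E] Ω) {d : ℕ} (u : Fin d → Ω) (i : Fin (d + 1)) :
    g⁻¹ (cf u i) = cf (fun j => g⁻¹ (u j)) i := by
  unfold cf
  have h : (∏ j, (Polynomial.X - Polynomial.C (g⁻¹ (u j))) : Polynomial Ω) =
      Polynomial.map ((g⁻¹ : Ω ≃ₐ[E] Ω) : Ω →+* Ω)
        (∏ j, (Polynomial.X - Polynomial.C (u j)) : Polynomial Ω) := by
    rw [Polynomial.map_prod]
    refine Finset.prod_congr rfl fun j _ => ?_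
    rw [Polynomial.map_sub, Polynomial.map_X, Polynomial.map_C]
    rfl
  rw [h, Polynomial.coeff_map]
  rfl

theorem H_coef (hGB : StmtGB) (Q : PlF E Ω) (μ : Mn E Ω) (d : ℕ) :
    ∃ C : ℝ, ∀ u : Fin d → Ω, HH Q μ (cf u) ≤ ∑ j, HH Q μ ![1, u j] + C := by
  set c₀ : ℝ := Fintype.card Q.I * (d * Real.log 2) with hc₀
  refine ⟨c₀, fun u => ?_⟩
  have hs := M_sum μ Finset.univ (fun j : Fin d => FF Q ![1, u j]) fun j => cFF Q μ _
  have h1 : HH Q μ (cf u) ≤ μ.M fun g => (∑ j, FF Q ![1, u j] g) + c₀ := by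
    refine μ.mono _ _ (cFF Q μ _) (μ.cadd _ _ hs.1 (μ.cst c₀).1) fun g => ?_
    have h2 : (fun k => g⁻¹ (cf u k)) = cf (fun j => g⁻¹ (u j)) := by
      funext i
      exact cf_map g u i
    have h3 := (hGB E Ω Q).2.2 d (fun j => g⁻¹ (u j))
    unfold FF
    rw [h2]
    simp only [pair_eq]
    exact h3
  rw [μ.add _ _ hs.1 (μ.cst c₀).1, (μ.cst c₀).2, hs.2] at h1
  exact h1

theorem H_inv (Q : PlF E Ω) (μ : Mn E Ω) (g : Ω ≃ₐ[E] Ω) {ι : Type} [Finite ι] (a : ι → Ω) :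
    HH Q μ (fun k => g (a k)) = HH Q μ a := by
  have h : FF Q (fun k => g (a k)) = fun x => FF Q a (g⁻¹ * x) := by
    funext x
    have h1 : (g⁻¹ * x)⁻¹ = x⁻¹ * g := by
      rw [mul_inv_rev, inv_inv]
    unfold FF
    rw [h1]
    rfl
  unfold HH
  rw [h]
  exact (μ.inv _ (cFF Q μ a) g).2

theorem H_alg (Q : PlF E Ω) (μ : Mn E Ω) (y : E) :
    HH Q μ ![1, algebraMap E Ω y] = hh Q ![1, algebraMap E Ω y] := by
  have h : FF Q ![1, algebraMap E Ω y] = fun _ => hh Q ![1, algebraMap E Ω y] := by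
    funext g
    unfold FF
    rw [pair_eq, AlgEquiv.commutes]
  unfold HH
  rw [h]
  exact (μ.cst _).2

end HtM

theorem tHt (hGA : StmtGA) (hGB : StmtGB) (hPF : StmtPF) (hM : StmtMean) : StmtHt := by
  intro E Ω _ _ _ _ Q
  obtain ⟨μ⟩ := hM E Ω
  refine ⟨{ H := fun {ι} _ a => HtM.HH Q μ a
            nonneg := fun {ι} _ a => HtM.H_nonneg hGA hPF Q μ a
            zero := fun {ι} _ => HtM.H_zero hGA Q μ
            smul := fun {ι} _ c a hc => HtM.H_smul hGA hPF Q μ c a hc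
            comp := fun {ι κ} _ _ e a => HtM.H_comp hGA hPF Q μ e a
            tens := fun {ι κ} _ _ a b ha hb => HtM.H_tens hGA Q μ a b ha hb
            pow := fun {ι} _ a m => HtM.H_pow hGA Q μ a m
            lin := fun {ι κ} _ _ A => HtM.H_lin hGA hGB hPF Q μ A
            root := fun d => HtM.H_root hGB hPF Q μ d
            coef := fun d => HtM.H_coef hGB Q μ d }, ?_, ?_⟩
  · intro g ι _ a
    exact HtM.H_inv Q μ g a
  · intro y
    exact HtM.H_alg Q μ y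

end Pool.Agent.Lib.MP_16285c_agX.HS
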