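import Pool.Agent.Lib.MP_16285c_agX.HS.Spec

/-!
# Absolute heights: six elementary properties of the logarithm of a maximum (module LA)
-/

set_option autoImplicit false

namespace Pool.Agent.Lib.MP_16285c_agX.HS

open Pool.Agent.Lib.MP_16285c_ag

namespace LAM

variable {Ω : Type} [Field Ω] (w : AbsoluteValue Ω ℝ)

theorem sup_nonneg {ι : Type} (a : ι → Ω) : 0 ≤ ⨆ k, w (a k) :=
  Real.iSup_nonneg fun k => w.nonneg (a k)

theorem le_sup {ι : Type} [Finite ι] (a : ι → Ω) (k : ι) : w (a k) ≤ ⨆ k, w (a k) :=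
  le_ciSup (f := fun k => w (a k)) (Set.finite_range _).bddAbove k

theorem sup_pos {ι : Type} [Finite ι] (a : ι → Ω) (ha : a ≠ 0) : 0 < ⨆ k, w (a k) := by
  obtain ⟨k, hk⟩ := Function.ne_iff.1 ha
  exact lt_of_lt_of_le (w.pos hk) (le_sup w a k)

theorem sup_le {ι : Type} (a : ι → Ω) {c : ℝ} (hc : 0 ≤ c) (h : ∀ k, w (a k) ≤ c) : ⨆ k, w (a k) ≤ c :=
  Real.iSup_le h hc

theorem sup_att {ι : Type} [Finite ι] [Nonempty ι] (a : ι → Ω) : ∃ k, w (a k) = ⨆ k, w (a k) :=
  exists_eq_ciSup_of_finite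

end LAM

open LAM in
theorem tLA : StmtLA := by
  intro Ω _ w
  refine ⟨?_, ?_, ?_, ?_, ?_, ?_⟩
  · intro ι _
    have h : ⨆ k : ι, w ((0 : ι → Ω) k) = 0 :=
      le_antisymm (sup_le w _ le_rfl fun k => by rw [Pi.zero_apply, map_zero]) (sup_nonneg w _)
    rw [lh, h, Real.log_zero]
  · intro ι κ _ _ e a hae
    exact Real.log_le_log (sup_pos w (a ∘ e) hae) (sup_le w _ (sup_nonneg w _) fun k => le_sup w a (e k))
  · intro ι κ _ _ a b ha hb
    have : Nonempty ι := ⟨(Function.ne_iff.1 ha).choose⟩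
    have : Nonempty κ := ⟨(Function.ne_iff.1 hb).choose⟩
    obtain ⟨k, hk⟩ := sup_att w a
    obtain ⟨l, hl⟩ := sup_att w b
    have h : ⨆ t : ι × κ, w (a t.1 * b t.2) = (⨆ k, w (a k)) * ⨆ l, w (b l) := by
      refine le_antisymm (sup_le w (fun t : ι × κ => a t.1 * b t.2)
        (mul_nonneg (sup_nonneg w _) (sup_nonneg w _)) fun t => ?_) ?_
      · rw [map_mul]
        exact mul_le_mul (le_sup w a _) (le_sup w b _) (w.nonneg _) (sup_nonneg w _)
      · have h2 := le_sup w (fun t : ι × κ => a t.1 * b t.2) (k, l)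
        simp only [map_mul] at h2
        rw [hk, hl] at h2
        simpa only [map_mul] using h2
    rw [lh, h, Real.log_mul (sup_pos w a ha).ne' (sup_pos w b hb).ne', lh, lh]
  · intro ι _ a m
    rcases isEmpty_or_nonempty ι with hι | hι
    · rw [lh, lh, Real.iSup_of_isEmpty, Real.iSup_of_isEmpty, Real.log_zero, mul_zero]
    · obtain ⟨k, hk⟩ := sup_att w a
      have h : ⨆ i, w (a i ^ m) = (⨆ k, w (a k)) ^ m := by
        refine le_antisymm (sup_le w (fun i => a i ^ m) (pow_nonneg (sup_nonneg w _) m) fun i => ?_) ?_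
        · rw [map_pow]
          exact pow_le_pow_left₀ (w.nonneg _) (le_sup w a i) m
        · have h2 := le_sup w (fun i => a i ^ m) k
          simp only [map_pow] at h2
          rw [hk] at h2
          simpa only [map_pow] using h2
      rw [lh, h, Real.log_pow, lh]
  · intro ι _ a ha
    by_cases h : ∃ k, w (a k) = 1
    · obtain ⟨k, hk⟩ := h
      have h2 : ⨆ k, w (a k) = 1 := by
        refine le_antisymm (sup_le w a zero_le_one fun i => ?_) (hk ▸ le_sup w a k)
        rcases ha i with h3 | h3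
        · rw [h3, map_zero]
          exact zero_le_one
        · exact h3.le
      rw [lh, h2, Real.log_one]
    · have h2 : ⨆ k, w (a k) = 0 := by
        refine le_antisymm (sup_le w a le_rfl fun i => ?_) (sup_nonneg w a)
        rcases ha i with h3 | h3
        · rw [h3, map_zero]
        · exact absurd ⟨i, h3⟩ h
      rw [lh, h2, Real.log_zero]
  · intro u
    have h : ⨆ k, w ((![1, u] : Fin 2 → Ω) k) = max (w u) 1 := by
      refine le_antisymm (sup_le w _ (le_max_of_le_right zero_le_one) fun i => ?_) (max_le ?_ ?_)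
      · fin_cases i
        · simp
        · simp
      · exact le_sup w ![1, u] 1
      · have h2 := le_sup w ![1, u] 0
        rwa [Matrix.cons_val_zero, map_one] at h2
    rw [lh, h]

end Pool.Agent.Lib.MP_16285c_agX.HS
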