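import Pool.Agent.Lib.MP_16285c_agX.HS.Spec

/-!
# Absolute heights: local heights, linear maps and roots (LB)
-/

set_option autoImplicit false

namespace Pool.Agent.Lib.MP_16285c_agX.HS

open Pool.Agent.Lib.MP_16285c_ag

namespace LBM

variable {Ω : Type} [Field Ω]

theorem le_sup {ι : Type} [Finite ι] (w : AbsoluteValue Ω ℝ) (a : ι → Ω) (i : ι) :
    w (a i) ≤ ⨆ k, w (a k) :=
  le_ciSup (f := fun k => w (a k)) (Set.finite_range _).bddAbove i

theorem sup_nonneg {ι : Type} (w : AbsoluteValue Ω ℝ) (a : ι → Ω) : 0 ≤ ⨆ k, w (a k) :=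
  Real.iSup_nonneg fun k => w.nonneg (a k)

theorem part1 (w : AbsoluteValue Ω ℝ) (K : ℕ → ℝ) (hK : Trn w K) (ι κ : Type) [Fintype ι]
    [Finite κ] (A : κ → ι → Ω) (a : ι → Ω) (h : (fun j => ∑ i, A j i * a i) ≠ 0) :
    lh w (fun j => ∑ i, A j i * a i) ≤
      lh w (fun t : κ × ι => A t.1 t.2) + lh w a + Real.log (K (Fintype.card ι)) := by
  obtain ⟨j₀, hj₀⟩ := Function.ne_iff.mp h
  have hKp : 0 < K (Fintype.card ι) := lt_of_lt_of_le one_pos (hK.1 _)
  have hSA := sup_nonneg w (fun t : κ × ι => A t.1 t.2)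
  have hSa := sup_nonneg w a
  have hle : ⨆ j, w (∑ i, A j i * a i) ≤ K (Fintype.card ι) *
      ((⨆ t : κ × ι, w (A t.1 t.2)) * ⨆ i, w (a i)) := by
    refine Real.iSup_le (fun j => ?_) (mul_nonneg hKp.le (mul_nonneg hSA hSa))
    refine (hK.2 ι fun i => A j i * a i).trans (mul_le_mul_of_nonneg_left ?_ hKp.le)
    refine Real.iSup_le (fun i => ?_) (mul_nonneg hSA hSa)
    rw [map_mul]
    exact mul_le_mul (le_sup w (fun t : κ × ι => A t.1 t.2) (j, i)) (le_sup w a i)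
      (w.nonneg _) hSA
  have hpos : 0 < ⨆ j, w (∑ i, A j i * a i) :=
    lt_of_lt_of_le (w.pos hj₀) (le_sup w (fun j => ∑ i, A j i * a i) j₀)
  have hp2 : 0 < K (Fintype.card ι) * ((⨆ t : κ × ι, w (A t.1 t.2)) * ⨆ i, w (a i)) :=
    lt_of_lt_of_le hpos hle
  have hp3 : 0 < (⨆ t : κ × ι, w (A t.1 t.2)) * ⨆ i, w (a i) := (pos_iff_pos_of_mul_pos hp2).mp hKp
  have hA0 : (⨆ t : κ × ι, w (A t.1 t.2)) ≠ 0 := left_ne_zero_of_mul hp3.ne'
  have ha0 : (⨆ i, w (a i)) ≠ 0 := right_ne_zero_of_mul hp3.ne'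
  unfold lh
  refine (Real.log_le_log hpos hle).trans (le_of_eq ?_)
  rw [Real.log_mul hKp.ne' hp3.ne', Real.log_mul hA0 ha0]
  ring

theorem part2 (w : AbsoluteValue Ω ℝ) (K : ℕ → ℝ) (hK : Trn w K) (d : ℕ) (c : Fin (d + 1) → Ω)
    (u : Ω) (hc : c (Fin.last d) ≠ 0) (h : ∑ i, c i * u ^ (i : ℕ) = 0) :
    max (w u) 1 * w (c (Fin.last d)) ≤ (⨆ k, w (c k)) * K d := by
  have hm := le_sup w c (Fin.last d)
  have hm0 := sup_nonneg w c
  have hK1 := hK.1 d
  rcases le_or_gt (w u) 1 with hu | hu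
  · rw [max_eq_right hu, one_mul]
    nlinarith
  · rw [max_eq_left hu.le]
    rcases d with _ | e
    · exfalso
      apply hc
      rw [Fin.sum_univ_one] at h
      simpa using h
    · have hu0 : 0 < w u := lt_trans one_pos hu
      rw [Fin.sum_univ_castSucc] at h
      have h1 : c (Fin.last (e + 1)) * u ^ (e + 1) =
          -∑ i : Fin (e + 1), c i.castSucc * u ^ (i : ℕ) := by
        have h2 := eq_neg_of_add_eq_zero_right h
        rw [Fin.val_last] at h2
        exact h2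
      have h3 : w (c (Fin.last (e + 1))) * w u ^ (e + 1) ≤
          K (e + 1) * ((⨆ k, w (c k)) * w u ^ e) := by
        rw [← map_pow, ← map_mul, h1, w.map_neg]
        have h4 := hK.2 (Fin (e + 1)) fun i => c i.castSucc * u ^ (i : ℕ)
        rw [Fintype.card_fin] at h4
        refine h4.trans (mul_le_mul_of_nonneg_left ?_ (by linarith))
        refine Real.iSup_le (fun i => ?_) (mul_nonneg hm0 (pow_nonneg hu0.le _))
        rw [map_mul, map_pow]
        refine mul_le_mul (le_sup w c i.castSucc) ?_ (pow_nonneg hu0.le _) hm0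
        exact pow_le_pow_right₀ hu.le (Nat.lt_succ_iff.mp i.2)
      have h5 : 0 < w u ^ e := pow_pos hu0 e
      have h6 : w u * w (c (Fin.last (e + 1))) * w u ^ e ≤
          (⨆ k, w (c k)) * K (e + 1) * w u ^ e := by
        rw [pow_succ] at h3
        linarith
      exact le_of_mul_le_mul_right h6 h5

end LBM

open LBM in
/-- (LB) Local heights, linear maps and roots. -/
theorem tLB (hLA : StmtLA) : StmtLB := by
  intro Ω _ w K hK
  refine ⟨fun ι κ _ _ A a h => part1 w K hK ι κ A a h, fun d c u hc h => ?_⟩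
  have h1 := part2 w K hK d c u hc h
  have hp : 0 < w (c (Fin.last d)) := w.pos hc
  have hm : 0 < ⨆ k, w (c k) := lt_of_lt_of_le hp (le_sup w c (Fin.last d))
  have hKp : 0 < K d := lt_of_lt_of_le one_pos (hK.1 d)
  have hx : 0 < max (w u) 1 := lt_of_lt_of_le one_pos (le_max_right _ _)
  rw [(hLA Ω w).2.2.2.2.2 u, ← Real.log_mul hx.ne' hp.ne']
  refine (Real.log_le_log (mul_pos hx hp) h1).trans (le_of_eq ?_)
  rw [Real.log_mul hm.ne' hKp.ne']
  rfl

end Pool.Agent.Lib.MP_16285c_agX.HS
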