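import Pool.Agent.Lib.MP_16285c_agX.HS.Spec

/-!
# Absolute heights: local heights of the coefficients of a product of linear factors (LC)
-/

set_option autoImplicit false

namespace Pool.Agent.Lib.MP_16285c_agX.HS

open Pool.Agent.Lib.MP_16285c_ag

namespace LCM

theorem step {Ω : Type} [Field Ω] (w : AbsoluteValue Ω ℝ) (K : ℕ → ℝ) (hK : Trn w K)
    (P : Polynomial Ω) (u : Ω) (B : ℝ) (hB : ∀ i, w (P.coeff i) ≤ B) (i : ℕ) :
    w ((P * (Polynomial.X - Polynomial.C u)).coeff i) ≤ B * (K 2 * max (w u) 1) := by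
  have hB0 : 0 ≤ B := (w.nonneg _).trans (hB 0)
  have hm1 : 1 ≤ max (w u) 1 := le_max_right _ _
  have hm0 : 0 ≤ max (w u) 1 := zero_le_one.trans hm1
  have e : (P * (Polynomial.X - Polynomial.C u)).coeff i =
      ∑ k, (![(P * Polynomial.X).coeff i, -(P.coeff i * u)] : Fin 2 → Ω) k := by
    rw [Fin.sum_univ_two, mul_sub, Polynomial.coeff_sub, Polynomial.coeff_mul_C]
    simp [sub_eq_add_neg]
  have h1 : w ((P * Polynomial.X).coeff i) ≤ B * max (w u) 1 := by
    have h2 : w ((P * Polynomial.X).coeff i) ≤ B := by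
      cases i with
      | zero =>
        rw [Polynomial.coeff_mul_X_zero, map_zero]
        exact hB0
      | succ i =>
        rw [Polynomial.coeff_mul_X]
        exact hB i
    exact h2.trans (le_mul_of_one_le_right hB0 hm1)
  have h2 : w (-(P.coeff i * u)) ≤ B * max (w u) 1 := by
    rw [w.map_neg, w.map_mul]
    exact mul_le_mul (hB i) (le_max_left _ _) (w.nonneg _) hB0
  rw [e]
  refine (hK.2 (Fin 2) _).trans ?_
  rw [Fintype.card_fin]
  have h3 : (⨆ k, w ((![(P * Polynomial.X).coeff i, -(P.coeff i * u)] : Fin 2 → Ω) k)) ≤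
      B * max (w u) 1 := by
    refine ciSup_le fun k => ?_
    fin_cases k
    · exact h1
    · exact h2
  have hK0 : 0 ≤ K 2 := zero_le_one.trans (hK.1 2)
  calc K 2 * (⨆ k, w ((![(P * Polynomial.X).coeff i, -(P.coeff i * u)] : Fin 2 → Ω) k))
      ≤ K 2 * (B * max (w u) 1) := mul_le_mul_of_nonneg_left h3 hK0
    _ = B * (K 2 * max (w u) 1) := by ring

theorem all {Ω : Type} [Field Ω] (w : AbsoluteValue Ω ℝ) (K : ℕ → ℝ) (hK : Trn w K) :
    ∀ (d : ℕ) (u : Fin d → Ω) (i : ℕ),
      w ((∏ j, (Polynomial.X - Polynomial.C (u j)) : Polynomial Ω).coeff i) ≤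
        ∏ j, (K 2 * max (w (u j)) 1) := by
  intro d
  induction d with
  | zero =>
    intro u i
    rw [Finset.univ_eq_empty, Finset.prod_empty, Finset.prod_empty, Polynomial.coeff_one]
    split_ifs
    · rw [w.map_one]
    · rw [w.map_zero]
      exact zero_le_one
  | succ d ih =>
    intro u i
    rw [Fin.prod_univ_castSucc, Fin.prod_univ_castSucc]
    exact step w K hK _ _ _ (ih fun j => u j.castSucc) i

theorem lead {Ω : Type} [Field Ω] {d : ℕ} (u : Fin d → Ω) : cf u (Fin.last d) = 1 := by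
  unfold cf
  have h1 : (∏ j, (Polynomial.X - Polynomial.C (u j)) : Polynomial Ω).Monic :=
    Polynomial.monic_prod_of_monic _ _ fun j _ => Polynomial.monic_X_sub_C _
  have h2 : (∏ j, (Polynomial.X - Polynomial.C (u j)) : Polynomial Ω).natDegree = d := by
    rw [Polynomial.natDegree_prod_of_monic _ _ fun j _ => Polynomial.monic_X_sub_C _]
    simp
  have h3 := h1.coeff_natDegree
  rw [h2] at h3
  exact h3

end LCM

open LCM in
theorem tLC (hLA : StmtLA) : StmtLC := by
  intro Ω _ w K hK d u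
  have hK0 : 0 < K 2 := zero_lt_one.trans_le (hK.1 2)
  have hm : ∀ j, 0 < max (w (u j)) 1 := fun j => zero_lt_one.trans_le (le_max_right _ _)
  have h1 : (⨆ i, w (cf u i)) ≤ ∏ j, (K 2 * max (w (u j)) 1) :=
    ciSup_le fun i => all w K hK d u i
  have h0 : 0 < ⨆ i, w (cf u i) := by
    have h2 : w (cf u (Fin.last d)) ≤ ⨆ i, w (cf u i) :=
      le_ciSup (f := fun i => w (cf u i)) (Set.finite_range _).bddAbove (Fin.last d)
    rw [lead, w.map_one] at h2
    exact zero_lt_one.trans_le h2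
  have h2 : lh w (cf u) ≤ Real.log (∏ j, (K 2 * max (w (u j)) 1)) := Real.log_le_log h0 h1
  refine h2.trans (le_of_eq ?_)
  rw [Real.log_prod fun j _ => (mul_pos hK0 (hm j)).ne']
  have h3 : ∀ j, Real.log (K 2 * max (w (u j)) 1) = lh w ![1, u j] + Real.log (K 2) := by
    intro j
    rw [Real.log_mul hK0.ne' (hm j).ne', (hLA Ω w).2.2.2.2.2 (u j), add_comm]
  rw [Finset.sum_congr rfl fun j _ => h3 j, Finset.sum_add_distrib, Finset.sum_const,
    Finset.card_univ, Fintype.card_fin, nsmul_eq_mul]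

end Pool.Agent.Lib.MP_16285c_agX.HS
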