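import Pool.Agent.Lib.MP_16285c_agX.HS.Spec

/-!
# Extension of embeddings (S2 of section HS)

`F` is made an `E`-algebra by the common preimages under `ι` and `ι'`; then `ι'` is an `E`-algebra
homomorphism, and it extends to an `E`-algebra homomorphism `Ω → Ω` along `ι`, which is bijective.
-/

set_option autoImplicit false

namespace Pool.Agent.Lib.MP_16285c_agX.HS

open Pool.Agent.Lib.MP_16285c_ag

namespace LftM

/-- A function into a field which becomes a ring homomorphism after an injective one. -/
private theorem exists_hom {E Ω F : Type} [Field E] [Field Ω] [Algebra E Ω] [Field F] (ι ι' : F →+* Ω)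
    (h : ∀ x : E, ∃ y : F, ι y = algebraMap E Ω x ∧ ι' y = algebraMap E Ω x) :
    ∃ e : E →+* F, (∀ x, ι (e x) = algebraMap E Ω x) ∧ ∀ x, ι' (e x) = algebraMap E Ω x := by
  choose e he he' using h
  have hi : Function.Injective ι := ι.injective
  refine ⟨{ toFun := e, map_one' := ?_, map_mul' := ?_, map_zero' := ?_, map_add' := ?_ }, he, he'⟩
  · apply hi
    rw [he, map_one, map_one]
  · intro x y
    apply hi
    rw [map_mul, he, he, he, map_mul]
  · apply hi
    rw [he, map_zero, map_zero]
  · intro x y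
    apply hi
    rw [map_add, he, he, he, map_add]

private theorem main {E Ω F : Type} [Field E] [Field Ω] [IsAlgClosed Ω] [Algebra E Ω] [Algebra.IsAlgebraic E Ω] [Field F]
    [Algebra E F] [Algebra F Ω] [IsScalarTower E F Ω] (f : F →ₐ[E] Ω) :
    ∃ g : Ω ≃ₐ[E] Ω, ∀ y : F, g (algebraMap F Ω y) = f y := by
  haveI : Algebra.IsAlgebraic F Ω := Algebra.IsAlgebraic.tower_top (K := E) F
  obtain ⟨φ, hφ⟩ := IsAlgClosed.surjective_domRestrict_of_isAlgebraic (K := E) (L := F) (M := Ω) (E := Ω) f
  refine ⟨AlgEquiv.ofBijective φ (Algebra.IsAlgebraic.algHom_bijective φ), fun y => ?_⟩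
  have h := DFunLike.congr_fun hφ y
  exact h

end LftM

theorem tLft : StmtLft := by
  intro E Ω F _ _ _ _ _ _ ι ι' h
  obtain ⟨e, he, he'⟩ := LftM.exists_hom ι ι' h
  letI : Algebra E F := e.toAlgebra
  letI : Algebra F Ω := ι.toAlgebra
  haveI : IsScalarTower E F Ω := IsScalarTower.of_algebraMap_eq fun x => (he x).symm
  exact LftM.main (E := E) { ι' with commutes' := he' }

end Pool.Agent.Lib.MP_16285c_agX.HS
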