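import Pool.Agent.Lib.MP_16285c_agX.HS.Spec

/-!
# The Haar mean on the Galois group (M1)
-/

set_option autoImplicit false

namespace Pool.Agent.Lib.MP_16285c_agX.HS

open MeasureTheory

/-- Functions of the image of a finite tuple are continuous. -/
private theorem tup_cont {E Ω : Type} [Field E] [Field Ω] [Algebra E Ω] [IsGalois E Ω] (ι : Type) [Finite ι]
    (b : ι → Ω) (φ : (ι → Ω) → ℝ) : Continuous fun g : Ω ≃ₐ[E] Ω => φ fun k => g⁻¹ (b k) := by
  apply IsLocallyConstant.continuous
  rw [IsLocallyConstant.iff_exists_open]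
  intro g₀
  have hfd : FiniteDimensional E (IntermediateField.adjoin E (Set.range b)) := by
    have : Finite (Set.range b) := Set.finite_range b
    exact IntermediateField.finiteDimensional_adjoin fun x _ => Algebra.IsIntegral.isIntegral x
  have hU := IntermediateField.fixingSubgroup_isOpen (IntermediateField.adjoin E (Set.range b))
  refine ⟨(fun g : Ω ≃ₐ[E] Ω => g * g₀⁻¹) ⁻¹'
    ((IntermediateField.adjoin E (Set.range b)).fixingSubgroup : Set (Ω ≃ₐ[E] Ω)), ?_, ?_, ?_⟩
  · exact hU.preimage (continuous_mul_const g₀⁻¹)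
  · rw [Set.mem_preimage, mul_inv_cancel]
    exact one_mem _
  · intro g hg
    have h1 : ∀ x ∈ IntermediateField.adjoin E (Set.range b), (g * g₀⁻¹) x = x := by
      intro x hx
      exact (IntermediateField.mem_fixingSubgroup_iff _ _).1 hg x hx
    have h2 : ∀ k, g⁻¹ (b k) = g₀⁻¹ (b k) := by
      intro k
      have h3 := h1 (b k) (IntermediateField.subset_adjoin E _ ⟨k, rfl⟩)
      have h4 : g (g₀⁻¹ (b k)) = b k := h3
      calc g⁻¹ (b k) = g⁻¹ (g (g₀⁻¹ (b k))) := by rw [h4]
        _ = (g⁻¹ * g) (g₀⁻¹ (b k)) := rfl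
        _ = g₀⁻¹ (b k) := by rw [inv_mul_cancel]; rfl
    show (φ fun k => g⁻¹ (b k)) = φ fun k => g₀⁻¹ (b k)
    rw [funext h2]

theorem tMean : StmtMean := by
  intro E Ω _ _ _ _
  let _ : MeasurableSpace (Ω ≃ₐ[E] Ω) := borel _
  have hB : BorelSpace (Ω ≃ₐ[E] Ω) := ⟨rfl⟩
  let μ : Measure (Ω ≃ₐ[E] Ω) := Measure.haarMeasure ⊤
  have hμ1 : μ Set.univ = 1 := Measure.haarMeasure_self (K₀ := (⊤ : TopologicalSpace.PositiveCompacts (Ω ≃ₐ[E] Ω)))
  have hpr : IsProbabilityMeasure μ := ⟨hμ1⟩
  have hinv : μ.IsMulLeftInvariant := Measure.isMulLeftInvariant_haarMeasure _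
  have hint : ∀ f : (Ω ≃ₐ[E] Ω) → ℝ, Continuous f → Integrable f μ := fun f hf =>
    hf.integrable_of_hasCompactSupport (HasCompactSupport.of_compactSpace f)
  refine ⟨{ C := fun f => Continuous f
            M := fun f => ∫ g, f g ∂μ
            tup := fun ι _ b φ => tup_cont ι b φ
            cadd := fun f f' hf hf' => hf.add hf'
            add := fun f f' hf hf' => integral_add (hint f hf) (hint f' hf')
            mono := fun f f' hf hf' h => integral_mono (hint f hf) (hint f' hf') h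
            cst := fun r => ⟨continuous_const, ?_⟩
            inv := fun f hf g₀ => ⟨hf.comp (continuous_const_mul g₀⁻¹), integral_mul_left_eq_self f g₀⁻¹⟩ }⟩
  simp

end Pool.Agent.Lib.MP_16285c_agX.HS
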