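import Pool.Agent.Lib.MP_16285c_agX.HS.Spec

/-!
# Absolute heights: the product formula by conjugates
-/

set_option autoImplicit false

namespace Pool.Agent.Lib.MP_16285c_agX.HS

open Pool.Agent.Lib.MP_16285c_ag

namespace PFM

section

variable {E Ω : Type} [Field E] [Field Ω] [Algebra E Ω]

/-- The height of a one-element tuple. -/
noncomputable def L (Q : PlF E Ω) (x : Ω) : ℝ := hh Q fun _ : Unit => x

theorem L_mul (hGA : StmtGA) (Q : PlF E Ω) (x y : Ω) (hx : x ≠ 0) (hy : y ≠ 0) :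
    L Q (x * y) = L Q x + L Q y := by
  obtain ⟨-, -, -, -, h5, -⟩ := hGA E Ω Q
  have h := h5 x hx Unit (fun _ => y) (fun h0 => hy (congrFun h0 ()))
  exact h

theorem L_alg (hGA : StmtGA) (Q : PlF E Ω) (c : E) (hc : c ≠ 0) : L Q (algebraMap E Ω c) = 0 :=
  (hGA E Ω Q).2.2.2.2.2 c hc

theorem L_prod (hGA : StmtGA) (Q : PlF E Ω) (s : Multiset Ω) (hs : ∀ b ∈ s, b ≠ 0) :
    (s.map fun b => L Q b).sum = L Q s.prod := by
  induction s using Multiset.induction_on with
  | empty =>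
    have h := L_alg hGA Q 1 one_ne_zero
    rw [map_one] at h
    rw [Multiset.map_zero, Multiset.sum_zero, Multiset.prod_zero, h]
  | cons a s ih =>
    rw [Multiset.map_cons, Multiset.sum_cons, Multiset.prod_cons,
      ih fun b hb => hs b (Multiset.mem_cons_of_mem hb),
      L_mul hGA Q a s.prod (hs a (Multiset.mem_cons_self a s))
        (Multiset.prod_ne_zero fun h0 => hs 0 (Multiset.mem_cons_of_mem h0) rfl)]

theorem C_L (Q : PlF E Ω) (μ : Mn E Ω) (b : Ω) : μ.C fun g => L Q (g⁻¹ b) :=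
  μ.tup Unit (fun _ => b) fun a => hh Q a

theorem M_sum (Q : PlF E Ω) (μ : Mn E Ω) (s : Multiset Ω) :
    μ.C (fun g => (s.map fun b => L Q (g⁻¹ b)).sum) ∧
      μ.M (fun g => (s.map fun b => L Q (g⁻¹ b)).sum) =
        (s.map fun b => μ.M fun g => L Q (g⁻¹ b)).sum := by
  induction s using Multiset.induction_on with
  | empty => simpa only [Multiset.map_zero, Multiset.sum_zero] using μ.cst 0
  | cons a s ih =>
    simp only [Multiset.map_cons, Multiset.sum_cons]
    exact ⟨μ.cadd _ _ (C_L Q μ a) ih.1, by rw [μ.add _ _ (C_L Q μ a) ih.1, ih.2]⟩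

end

end PFM

open PFM in
theorem tPF (hGA : StmtGA) : StmtPF := by
  intro E Ω _ _ _ _ Q μ c hc
  change μ.M (fun g => L Q (g⁻¹ c)) = 0
  have hint : IsIntegral E c := Algebra.IsIntegral.isIntegral c
  set q : Polynomial Ω := (minpoly E c).map (algebraMap E Ω) with hq
  have hmon : q.Monic := (minpoly.monic hint).map _
  have hsp : q.Splits := Normal.splits inferInstance c
  have hroot : ∀ b : Ω, b ∈ q.roots → Polynomial.aeval b (minpoly E c) = 0 := by
    intro b hb
    have h := (Polynomial.mem_roots hmon.ne_zero).1 hb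
    rwa [hq, Polynomial.IsRoot.def, Polynomial.eval_map, ← Polynomial.aeval_def] at h
  have hcr : c ∈ q.roots := by
    rw [Polynomial.mem_roots hmon.ne_zero, hq, Polynomial.IsRoot.def, Polynomial.eval_map,
      ← Polynomial.aeval_def]
    exact minpoly.aeval E c
  have hconj : ∀ b ∈ q.roots, ∃ g₀ : Ω ≃ₐ[E] Ω, g₀ c = b := fun b hb =>
    minpoly.exists_algEquiv_of_root' hint.isAlgebraic (hroot b hb)
  have hne : ∀ b ∈ q.roots, b ≠ 0 := by
    intro b hb h0
    obtain ⟨g₀, hg⟩ := hconj b hb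
    rw [h0] at hg
    exact hc ((map_eq_zero g₀).1 hg)
  have hP : q.roots.prod = algebraMap E Ω ((-1) ^ q.natDegree * (minpoly E c).coeff 0) := by
    have h1 := hsp.coeff_zero_eq_prod_roots_of_monic hmon
    have h2 : q.coeff 0 = algebraMap E Ω ((minpoly E c).coeff 0) := by
      rw [hq, Polynomial.coeff_map]
    rw [map_mul, ← h2, h1, map_pow, map_neg, map_one, ← mul_assoc, ← pow_add,
      Even.neg_one_pow ⟨_, rfl⟩, one_mul]
  have he : ((-1) ^ q.natDegree * (minpoly E c).coeff 0 : E) ≠ 0 :=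
    mul_ne_zero (pow_ne_zero _ (neg_ne_zero.2 one_ne_zero)) (minpoly.coeff_zero_ne_zero hint hc)
  have hsum : ∀ g : Ω ≃ₐ[E] Ω, (q.roots.map fun b => L Q (g⁻¹ b)).sum = 0 := by
    intro g
    have h1 : (q.roots.map fun b => L Q (g⁻¹ b)) =
        ((q.roots.map fun b => g⁻¹ b).map fun b => L Q b) := by
      rw [Multiset.map_map]
      rfl
    rw [h1, L_prod hGA Q _ (by
      intro b hb
      obtain ⟨b', hb', rfl⟩ := Multiset.mem_map.1 hb
      exact fun h0 => hne b' hb' ((map_eq_zero (g⁻¹ : Ω ≃ₐ[E] Ω)).1 h0))]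
    have h2 : (q.roots.map fun b => g⁻¹ b).prod = g⁻¹ q.roots.prod :=
      (map_multiset_prod (g⁻¹ : Ω ≃ₐ[E] Ω) q.roots).symm
    rw [h2, hP, AlgEquiv.commutes]
    exact L_alg hGA Q _ he
  have hM : ∀ b ∈ q.roots, μ.M (fun g => L Q (g⁻¹ b)) = μ.M fun g => L Q (g⁻¹ c) := by
    intro b hb
    obtain ⟨g₀, rfl⟩ := hconj b hb
    have h := (μ.inv _ (C_L Q μ c) g₀).2
    rw [← h]
    congr 1
  have h0 := (M_sum Q μ q.roots).2
  simp only [hsum] at h0
  rw [(μ.cst 0).2, Multiset.map_congr rfl hM, Multiset.map_const', Multiset.sum_replicate,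
    nsmul_eq_mul] at h0
  have hcard : ((Multiset.card q.roots : ℕ) : ℝ) ≠ 0 := by
    rw [Nat.cast_ne_zero]
    exact (Multiset.card_pos_iff_exists_mem.2 ⟨c, hcr⟩).ne'
  exact (mul_eq_zero.1 h0.symm).resolve_left hcard

end Pool.Agent.Lib.MP_16285c_agX.HS
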