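import Pool.Agent.Lib.MP_16285c_agX.HS.Spec
import Pool.Agent.Lib.MP_16285c_agN.T3.XSup

/-!
# HS/SupF: the supply for a field which is not algebraic over the rationals
-/

set_option autoImplicit false

namespace Pool.Agent.Lib.MP_16285c_agX.HS

open Pool.Agent.Lib.MP_16285c_ag

namespace SupFM

/-- Growth of the heights of `N * τ ^ i`. -/
theorem grow {K : Type} [Field K] [CharZero K] (A : Height.AdmissibleAbsValues K)
    (hA0 : A.archAbsVal = 0) (τ : K) (hτ : 0 < @Height.logHeight₁ K _ A τ) (B : ℝ) :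
    ∃ j₀ : ℕ, ∀ j, j₀ ≤ j → ∀ N : ℤ, N ≠ 0 → B < @Height.logHeight₁ K _ A ((N : K) * τ ^ j) := by
  obtain ⟨j₀, hj₀⟩ := exists_nat_gt (B / Height.logHeight₁ τ)
  rw [div_lt_iff₀ hτ] at hj₀
  refine ⟨j₀, fun j hj N hN => ?_⟩
  have hN0 : (N : K) ≠ 0 := Int.cast_ne_zero.2 hN
  have e2 : τ ^ j = (N : K)⁻¹ * ((N : K) * τ ^ j) := by
    rw [← mul_assoc, inv_mul_cancel₀ hN0, one_mul]
  have h3 : Height.logHeight₁ (τ ^ j) = j * Height.logHeight₁ τ := Height.logHeight₁_pow τ j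
  have h4 : Height.logHeight₁ (τ ^ j) ≤
      Height.logHeight₁ (N : K)⁻¹ + Height.logHeight₁ ((N : K) * τ ^ j) := by
    conv_lhs => rw [e2]
    exact Height.logHeight₁_mul_le _ _
  rw [Height.logHeight₁_inv, Pool.Agent.Lib.MP_16285c_agN.T3XSupM.h_int hA0, zero_add] at h4
  have h5 : (j₀ : ℝ) * Height.logHeight₁ τ ≤ (j : ℝ) * Height.logHeight₁ τ :=
    mul_le_mul_of_nonneg_right (by exact_mod_cast hj) hτ.le
  linarith

end SupFM

theorem tSupF (hBase : StmtBase) (hTrs : StmtTrs) : StmtSupF := by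
  intro k _ _ _ V V' p p' hp hp' h2 h2' hc hc' hna S
  obtain ⟨t, ht, htV, htV'⟩ :=
    Pool.Agent.Lib.MP_16285c_agZ.SupM.exists_t V V' p p' h2 h2' hc hc' hna
  obtain ⟨F, hF, j, hX, hcl, hS⟩ := hTrs k t ht S
  obtain ⟨A, hA0, -, hAX⟩ := admRatP F
  obtain ⟨Ω, h, hle, halg, hmax, hinv, hht⟩ := hBase k (RatFunc F) j A (by
    intro v hv
    rw [hA0] at hv
    exact absurd hv (Multiset.notMem_zero v))
  have hch : CharZero (RatFunc F) := by
    refine ⟨fun a b hab => ?_⟩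
    have h1 := congrArg j hab
    rw [map_natCast, map_natCast] at h1
    exact Nat.cast_injective h1
  refine ⟨j.fieldRange, Ω, h, t, hcl, hle, fun x hx => hmax x (hS x hx), halg, hmax, hinv, ?_, ?_,
    htV, htV', ?_⟩
  · intro h0
    apply ht
    rw [h0]
    exact isAlgebraic_zero
  · exact ⟨RatFunc.X, hX⟩
  · intro B
    obtain ⟨j₀, hj₀⟩ := SupFM.grow A hA0 RatFunc.X hAX B
    refine ⟨j₀, fun i hi s hs y hy => ?_⟩
    have hN : (p : ℤ) * p' * s ≠ 0 :=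
      mul_ne_zero (mul_ne_zero (Nat.cast_ne_zero.2 hp.ne_zero) (Nat.cast_ne_zero.2 hp'.ne_zero)) hs
    have h5 := hj₀ i hi ((p : ℤ) * p' * s) hN
    rw [hht ((((p : ℤ) * p' * s : ℤ) : RatFunc F) * RatFunc.X ^ i) y ?_]
    · exact h5
    · rw [hy, map_mul, map_pow, hX, map_intCast]
      push_cast
      ring

end Pool.Agent.Lib.MP_16285c_agX.HS
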