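import Pool.Agent.Lib.MP_16285c_agX.HS.Spec

/-!
# Absolute heights: supply, number field case (SupN)
-/

set_option autoImplicit false

namespace Pool.Agent.Lib.MP_16285c_agX.HS

open Pool.Agent.Lib.MP_16285c_ag

namespace SupNM

/-- Integers of large absolute value have large height in a number field. -/
theorem nf {K : Type} [Field K] [NumberField K] (q : ℕ) (hq : 2 ≤ q) (H : ℝ) :
    ∃ j₀ : ℕ, ∀ j, j₀ ≤ j → ∀ s : ℤ, s ≠ 0 →
      H < Height.logHeight₁ ((((q : ℤ) ^ (j + 1) * s : ℤ)) : K) := by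
  have hfin : {x : K | Height.logHeight₁ x ≤ H}.Finite :=
    NumberField.finite_setOfPred_logHeight₁_le K H
  have hfin2 : {N : ℤ | Height.logHeight₁ (N : K) ≤ H}.Finite :=
    hfin.preimage (f := fun N : ℤ => (N : K)) (Int.cast_injective.injOn)
  obtain ⟨M, hM⟩ := (hfin2.image Int.natAbs).bddAbove
  refine ⟨M, fun j hj s hs => ?_⟩
  by_contra hcon
  have h1 : ((q : ℤ) ^ (j + 1) * s).natAbs ≤ M :=
    hM ⟨_, not_lt.1 hcon, rfl⟩
  have h2 : q ^ (j + 1) ≤ ((q : ℤ) ^ (j + 1) * s).natAbs := by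
    rw [Int.natAbs_mul, Int.natAbs_pow, Int.natAbs_natCast]
    exact Nat.le_mul_of_pos_right _ (Int.natAbs_pos.2 hs)
  have h3 : j + 1 < q ^ (j + 1) := Nat.lt_pow_self (by omega)
  omega

/-- The archimedean absolute values come from embeddings. -/
theorem arch (v : AbsoluteValue ℚ ℝ)
    (hv : v ∈ (NumberField.instAdmissibleAbsValues (K := ℚ)).archAbsVal) :
    ∃ σ : ℚ →+* ℂ, ∀ x, v x = ‖σ x‖ := by
  have h1 : NumberField.IsInfinitePlace v := NumberField.mem_multisetInfinitePlace.1 hv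
  obtain ⟨φ, rfl⟩ := h1
  exact ⟨φ, fun x => rfl⟩

/-- An element algebraic over `ℚ` is algebraic over the prime field. -/
theorem alg {k : Type} [Field k] [CharZero k] (x : k) (h : IsAlgebraic ℚ x) :
    IsAlgebraic (algebraMap ℚ k).fieldRange x := by
  obtain ⟨P, hP, hP0⟩ := h
  have hinj : Function.Injective (algebraMap ℚ k).rangeRestrictField :=
    (algebraMap ℚ k).rangeRestrictField.injective
  refine ⟨P.map (algebraMap ℚ k).rangeRestrictField, ?_, ?_⟩
  · rwa [Ne, Polynomial.map_eq_zero_iff hinj]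
  · rw [Polynomial.aeval_def, Polynomial.eval₂_map]
    exact hP0

end SupNM

open SupNM in
/-- (S5) -/
theorem tSupN (hBase : StmtBase) : StmtSupN := by
  intro k _ _ _ V V' p p' hp hp' h2 h2' hc hc' halg S
  obtain ⟨Ω, h, h1, h3, h4, h5, h6⟩ := hBase k ℚ (algebraMap ℚ k)
    (NumberField.instAdmissibleAbsValues (K := ℚ)) arch
  refine ⟨(algebraMap ℚ k).fieldRange, Ω, h, ((p * p' : ℕ) : k), ⟨∅, ?_⟩, h1, ?_, h3, h4, h5,
    ?_, ?_, ?_, ?_, ?_⟩
  · rw [Finset.coe_empty, Subfield.closure_empty, Subfield.bot_eq_of_charZero]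
  · intro x _
    exact h4 x (alg x (halg.isAlgebraic x))
  · exact Nat.cast_ne_zero.mpr (mul_ne_zero hp.ne_zero hp'.ne_zero)
  · exact natCast_mem _ _
  · exact natCast_mem V _
  · exact natCast_mem V' _
  · intro B
    obtain ⟨j₀, hj₀⟩ := nf (K := ℚ) (p * p') (by nlinarith) B
    refine ⟨j₀, fun j hj s hs y hy => ?_⟩
    rw [h6 ((((((p * p' : ℕ) : ℤ) ^ (j + 1) * s : ℤ)) : ℚ)) y (by
      rw [hy]
      push_cast
      simp only [map_mul, map_pow, map_natCast, map_intCast]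
      ring)]
    exact hj₀ j hj s hs

end Pool.Agent.Lib.MP_16285c_agX.HS
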