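import Pool.Agent.Lib.MP_16285c_agX.HS.Spec

/-!
# ZD3X, section HS: a finite transcendence basis which contains a given element
-/

set_option autoImplicit false

open Pool.Agent.Lib.MP_16285c_ag

namespace Pool.Agent.Lib.MP_16285c_agX.HS

open IntermediateField.algebraAdjoinAdjoin in
theorem tTrs : StmtTrs := by
  intro k _ _ t ht S
  classical
  have h0 : AlgebraicIndepOn ℚ id ({t} : Set k) :=
    (algebraicIndependent_singleton_iff (⟨t, rfl⟩ : ({t} : Set k))).mpr ht
  let A : Finset (Finset k) := (insert t S).powerset.filter fun B =>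
    t ∈ B ∧ AlgebraicIndepOn ℚ id (B : Set k)
  have hne : A.Nonempty := by
    refine ⟨{t}, Finset.mem_filter.mpr ⟨?_, ?_, ?_⟩⟩
    · rw [Finset.mem_powerset, Finset.singleton_subset_iff]
      exact Finset.mem_insert_self _ _
    · exact Finset.mem_singleton_self _
    · rw [Finset.coe_singleton]
      exact h0
  obtain ⟨B, hBA, hmax⟩ := A.exists_max_image Finset.card hne
  obtain ⟨hBS, htB, hB⟩ := Finset.mem_filter.mp hBA
  rw [Finset.mem_powerset] at hBS
  -- the elements of `S` are algebraic
  have halg : ∀ s ∈ S, s ∉ B → IsAlgebraic (Algebra.adjoin ℚ (B : Set k)) s := by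
    intro s hs hsB
    by_contra hcon
    have h1 : AlgebraicIndepOn ℚ id (insert s (B : Set k)) := by
      refine (AlgebraicIndepOn.insert_iff (by exact_mod_cast hsB)).mpr ⟨hB, ?_⟩
      rw [Set.image_id]
      exact hcon
    have h2 : insert s B ∈ A := by
      refine Finset.mem_filter.mpr ⟨?_, Finset.mem_insert_of_mem htB, ?_⟩
      · rw [Finset.mem_powerset]
        intro x hx
        rcases Finset.mem_insert.mp hx with rfl | hx
        · exact Finset.mem_insert_of_mem hs
        · exact hBS hx
      · rw [Finset.coe_insert]
        exact h1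
    have h3 := hmax _ h2
    rw [Finset.card_insert_of_notMem hsB] at h3
    omega
  have h1 : Transcendental (Algebra.adjoin ℚ ((B.erase t : Finset k) : Set k)) t := by
    have h2 : AlgebraicIndepOn ℚ id (insert t ((B.erase t : Finset k) : Set k)) := by
      rw [← Finset.coe_insert, Finset.insert_erase htB]
      exact hB
    have h3 := ((AlgebraicIndepOn.insert_iff (by
      rw [Finset.mem_coe]; exact Finset.notMem_erase t B)).mp h2).2
    rw [Set.image_id] at h3
    exact h3
  let F := IntermediateField.adjoin ℚ ((B.erase t : Finset k) : Set k)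
  have h3 : Transcendental F t := by
    intro h
    exact h1 ((IsFractionRing.isAlgebraic_iff _ F k).mpr h)
  let φ : RatFunc F →+* k := ((IntermediateField.val _ : IntermediateField.adjoin F {t} →ₐ[F] k) :
    IntermediateField.adjoin F {t} →+* k).comp
      (RatFunc.algEquivOfTranscendental t h3 : RatFunc F →+* IntermediateField.adjoin F {t})
  have hφX : φ RatFunc.X = t := by
    simp [φ]
  have hφF : ∀ a : F, φ (algebraMap F (RatFunc F) a) = a := by
    intro a
    have h5 : (RatFunc.algEquivOfTranscendental t h3) (algebraMap F (RatFunc F) a) =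
        algebraMap F (IntermediateField.adjoin F {t}) a := AlgEquiv.commutes _ a
    change ((RatFunc.algEquivOfTranscendental t h3 (algebraMap F (RatFunc F) a) :
      IntermediateField.adjoin F {t}) : k) = a
    rw [h5]
    rfl
  have hBφ : ∀ x ∈ B, x ∈ φ.fieldRange := by
    intro x hx
    by_cases hxt : x = t
    · exact ⟨RatFunc.X, hφX.trans hxt.symm⟩
    · have h6 : x ∈ F := IntermediateField.subset_adjoin ℚ _
        (Finset.mem_coe.mpr (Finset.mem_erase.mpr ⟨hxt, hx⟩))
      exact ⟨algebraMap F (RatFunc F) ⟨x, h6⟩, hφF ⟨x, h6⟩⟩
  have hFc : ∀ x ∈ F, x ∈ Subfield.closure (B : Set k) := by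
    intro x hx
    induction hx using IntermediateField.adjoin_induction with
    | mem x hx =>
      exact Subfield.subset_closure (Finset.mem_coe.mpr
        (Finset.mem_of_mem_erase (Finset.mem_coe.mp hx)))
    | algebraMap x => exact SubfieldClass.ratCast_mem _ x
    | add x y _ _ hx hy => exact add_mem hx hy
    | inv x _ hx => exact inv_mem hx
    | mul x y _ _ hx hy => exact mul_mem hx hy
  have hrange : Subfield.closure ((B : Finset k) : Set k) = φ.fieldRange := by
    apply le_antisymm
    · rw [Subfield.closure_le]
      exact hBφ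
    · rintro _ ⟨z, rfl⟩
      have h6 : ((RatFunc.algEquivOfTranscendental t h3 z : IntermediateField.adjoin F {t}) : k) ∈
          IntermediateField.adjoin F {t} := Subtype.mem _
      change ((RatFunc.algEquivOfTranscendental t h3 z : IntermediateField.adjoin F {t}) : k) ∈ _
      revert h6
      generalize ((RatFunc.algEquivOfTranscendental t h3 z : IntermediateField.adjoin F {t}) : k) = y
      intro hy
      induction hy using IntermediateField.adjoin_induction with
      | mem x hx =>
        rw [Set.mem_singleton_iff] at hx
        rw [hx]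
        exact Subfield.subset_closure htB
      | algebraMap x => exact hFc _ x.2
      | add x y _ _ hx hy => exact add_mem hx hy
      | inv x _ hx => exact inv_mem hx
      | mul x y _ _ hx hy => exact mul_mem hx hy
  refine ⟨F, inferInstance, φ, hφX, ⟨B, hrange⟩, ?_⟩
  intro s hs
  by_cases hsB : s ∈ B
  · exact isAlgebraic_algebraMap (⟨s, hBφ s hsB⟩ : φ.fieldRange)
  · have hmem : ∀ z ∈ Algebra.adjoin ℚ (B : Set k), z ∈ φ.fieldRange := by
      intro z hz
      induction hz using Algebra.adjoin_induction with
      | mem x hx => exact hBφ x hx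
      | algebraMap r => exact SubfieldClass.ratCast_mem _ r
      | add x y _ _ hx hy => exact add_mem hx hy
      | mul x y _ _ hx hy => exact mul_mem hx hy
    let g : Algebra.adjoin ℚ (B : Set k) →+* φ.fieldRange :=
      { toFun := fun z => ⟨z, hmem z z.2⟩
        map_one' := rfl
        map_mul' := fun _ _ => rfl
        map_zero' := rfl
        map_add' := fun _ _ => rfl }
    have hg : Function.Injective g := by
      intro a b hab
      have h7 : ((g a : φ.fieldRange) : k) = ((g b : φ.fieldRange) : k) := by rw [hab]
      exact Subtype.ext h7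
    obtain ⟨p, hp, hps⟩ := halg s hs hsB
    refine ⟨p.map g, (Polynomial.map_ne_zero_iff hg).mpr hp, ?_⟩
    rw [Polynomial.aeval_def, Polynomial.eval₂_map]
    exact hps

end Pool.Agent.Lib.MP_16285c_agX.HS
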