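import Pool.Agent.Lib.MP_16285c_agX.HS.Trn
import Pool.Agent.Lib.MP_16285c_agX.HS.LA
import Pool.Agent.Lib.MP_16285c_agX.HS.LB
import Pool.Agent.Lib.MP_16285c_agX.HS.LC
import Pool.Agent.Lib.MP_16285c_agX.HS.Fs
import Pool.Agent.Lib.MP_16285c_agX.HS.GA
import Pool.Agent.Lib.MP_16285c_agX.HS.GB
import Pool.Agent.Lib.MP_16285c_agX.HS.Mean
import Pool.Agent.Lib.MP_16285c_agX.HS.PF
import Pool.Agent.Lib.MP_16285c_agX.HS.Ht
import Pool.Agent.Lib.MP_16285c_agX.HS.Plf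
import Pool.Agent.Lib.MP_16285c_agX.HS.Lft
import Pool.Agent.Lib.MP_16285c_agX.HS.Base
import Pool.Agent.Lib.MP_16285c_agX.HS.Trs
import Pool.Agent.Lib.MP_16285c_agX.HS.SupN
import Pool.Agent.Lib.MP_16285c_agX.HS.SupF

/-!
# Absolute heights: the supply `StmtHSup` of `T3/HDefs.lean`
-/

set_option autoImplicit false

namespace Pool.Agent.Lib.MP_16285c_agX

open HS in
/-- The supply of absolute heights. -/
theorem cHSup : StmtHSup := by
  have hGA := tGA tLA (tFs tLA)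
  have hGB := tGB tLA (tFs tLA) tTrn (tLB tLA) (tLC tLA)
  have hBase := tBase (tHt hGA hGB (tPF hGA) tMean) (tPlf tLA) tLft
  have hN := tSupN hBase
  have hF := tSupF hBase tTrs
  intro k _ _ _ V V' p p' hp hp' h2 h2' hc hc' S
  by_cases hk : Algebra.IsAlgebraic ℚ k
  · exact hN k V V' p p' hp hp' h2 h2' hc hc' hk S
  · exact hF k V V' p p' hp hp' h2 h2' hc hc' hk S

end Pool.Agent.Lib.MP_16285c_agX
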