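import Pool.Agent.Lib.MP_16285c_agX.HS.Spec
import Pool.Agent.Lib.MP_16285c_ag.AdmExt
import Pool.Agent.Lib.MP_16285c_ag.AbvExt

/-!
# Extension of the places (helper54)
-/

set_option autoImplicit false

namespace Pool.Agent.Lib.MP_16285c_agX.HS

open Pool.Agent.Lib.MP_16285c_ag

namespace PlfM

section

variable {E Ω : Type} [Field E] [Field Ω] [Algebra E Ω] [Algebra.IsAlgebraic E Ω]

/-- Extension of an absolute value given by an embedding into the complex numbers. -/
theorem arch (v : AbsoluteValue E ℝ) (h : ∃ σ : E →+* ℂ, ∀ x, v x = ‖σ x‖) :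
    ∃ w : AbsoluteValue Ω ℝ, ∀ x : E, w (algebraMap E Ω x) = v x := by
  obtain ⟨σ, hσ⟩ := h
  let _ : Algebra E ℂ := σ.toAlgebra
  let j : Ω →ₐ[E] ℂ := IsAlgClosed.lift
  refine ⟨(NormedField.toAbsoluteValue ℂ).comp (f := (j : Ω →+* ℂ)) (RingHom.injective _), ?_⟩
  intro x
  have h1 : j (algebraMap E Ω x) = σ x := j.commutes x
  rw [hσ, ← h1]
  rfl

variable {A : Height.AdmissibleAbsValues E} (w : A.nonarchAbsVal → AbsoluteValue Ω ℝ)
  (hw : ∀ v, IsNonarchimedean (w v))

include hw in
/-- Finiteness. -/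
theorem finite_gt (hext : ∀ v (x : E), w v (algebraMap E Ω x) = v.val x)
    (y : Ω) : {v : A.nonarchAbsVal | ∃ g : Ω ≃ₐ[E] Ω, 1 < w v (g y)}.Finite := by
  have hfin : (⋃ i ∈ (minpoly E y).support, {v : A.nonarchAbsVal | v.val ((minpoly E y).coeff i) ≠ 1}).Finite := by
    refine Set.Finite.biUnion (Finset.finite_toSet _) ?_
    intro i hi
    exact A.hasFiniteMulSupport (Polynomial.mem_support_iff.1 hi)
  refine hfin.subset ?_
  rintro v ⟨g, hg⟩
  by_contra hv
  rw [Set.mem_iUnion₂] at hv
  push Not at hv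
  refine absurd (AdmExtAux.le_one_of_coeff (E := E) (w v) (hw v) (g y) (Algebra.IsIntegral.isIntegral _) ?_) (not_le.2 hg)
  intro i
  rw [minpoly.algEquiv_eq, hext]
  by_cases hi : i ∈ (minpoly E y).support
  · have := hv i hi
    simp only [Set.mem_ofPred_eq, not_not] at this
    rw [this]
  · rw [Polynomial.notMem_support_iff.1 hi, v.val.map_zero]
    exact zero_le_one

include hw in
theorem finite_ne (hext : ∀ v (x : E), w v (algebraMap E Ω x) = v.val x)
    (y : Ω) (hy : y ≠ 0) : {v : A.nonarchAbsVal | ∃ g : Ω ≃ₐ[E] Ω, w v (g y) ≠ 1}.Finite := by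
  refine ((finite_gt w hw hext y).union (finite_gt w hw hext y⁻¹)).subset ?_
  rintro v ⟨g, hg⟩
  rcases lt_or_gt_of_ne hg with h | h
  · right
    refine ⟨g, ?_⟩
    rw [map_inv₀, map_inv₀]
    have hpos : 0 < w v (g y) := by
      rw [(w v).pos_iff]
      exact (map_ne_zero_iff g g.injective).2 hy
    exact (one_lt_inv₀ hpos).2 h
  · left
    exact ⟨g, h⟩

/-- The product formula in logarithmic form. -/
theorem pf_log (A : Height.AdmissibleAbsValues E) (c : E) (hc : c ≠ 0) :
    (A.archAbsVal.map fun v => Real.log (v c)).sum + ∑ᶠ v : A.nonarchAbsVal, Real.log (v.val c) = 0 := by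
  have h := A.product_formula hc
  have H : (A.archAbsVal.map (· c)).prod * ∏ᶠ v : A.nonarchAbsVal, v.val c ≠ 0 := by
    rw [h]
    exact one_ne_zero
  have h2 : ∀ a ∈ A.archAbsVal.map (· c), a ≠ 0 := by
    intro a ha
    rw [Multiset.mem_map] at ha
    obtain ⟨v, -, rfl⟩ := ha
    exact v.ne_zero hc
  have h3 := congrArg Real.log h
  rw [Real.log_mul (left_ne_zero_of_mul H) (right_ne_zero_of_mul H), Real.log_multiset_prod h2,
    Multiset.map_map, Real.log_finprod (fun v => v.val.pos hc), Real.log_one] at h3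
  exact h3

/-- A sum over the members of a list. -/
theorem sum_list (A : Height.AdmissibleAbsValues E) (f : AbsoluteValue E ℝ → ℝ) :
    ∑ i : Fin A.archAbsVal.toList.length, f (A.archAbsVal.toList.get i) = (A.archAbsVal.map f).sum := by
  have h1 : ∑ i : Fin A.archAbsVal.toList.length, f (A.archAbsVal.toList.get i) = (A.archAbsVal.toList.map f).sum := by
    rw [← Fin.sum_univ_fun_getElem]
    rfl
  rw [h1, ← Multiset.sum_coe, ← Multiset.map_coe, Multiset.coe_toList]

end

end PlfM

open PlfM in
/-- (S1) Places. -/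
theorem tPlf (hLA : StmtLA) : StmtPlf := by
  intro E Ω _ _ _ _ A hA
  have hch := fun v : A.nonarchAbsVal => abvExtP E Ω v.val (A.isNonarchimedean _ v.2)
  choose w hw hext using hch
  have hch2 := fun i : Fin A.archAbsVal.toList.length => arch (Ω := Ω) (A.archAbsVal.toList.get i)
    (hA _ (Multiset.mem_toList.1 (List.get_mem _ i)))
  choose u hu using hch2
  refine ⟨{ I := Fin A.archAbsVal.toList.length
            fI := inferInstance
            w := u
            J := A.nonarchAbsVal
            v := w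
            na := hw
            fin := fun x hx => finite_ne w hw hext x hx
            pf := ?_ }, ?_⟩
  · intro c hc
    have h1 : ∑ i : Fin A.archAbsVal.toList.length, Real.log (u i (algebraMap E Ω c)) =
        (A.archAbsVal.map fun v => Real.log (v c)).sum := by
      rw [← sum_list A (fun v => Real.log (v c))]
      exact Finset.sum_congr rfl (fun i _ => by rw [hu])
    have h2 : ∑ᶠ j : A.nonarchAbsVal, Real.log (w j (algebraMap E Ω c)) =
        ∑ᶠ v : A.nonarchAbsVal, Real.log (v.val c) := by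
      exact finsum_congr (fun j => by rw [hext])
    rw [h1, h2]
    exact pf_log A c hc
  · intro y
    have hp : ∀ (v : AbsoluteValue Ω ℝ) (x : Ω), lh v ![1, x] = Real.log (max (v x) 1) :=
      fun v x => (hLA Ω v).2.2.2.2.2 x
    rw [@Height.logHeight₁_eq E _ A]
    unfold hh
    have h1 : ∑ i : Fin A.archAbsVal.toList.length, lh (u i) ![1, algebraMap E Ω y] =
        (A.archAbsVal.map fun v => Real.posLog (v y)).sum := by
      rw [← sum_list A (fun v => Real.posLog (v y))]
      refine Finset.sum_congr rfl (fun i _ => ?_)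
      rw [hp, hu, Real.posLog_eq_log_max_one (AbsoluteValue.nonneg _ _), max_comm]
    have h2 : ∑ᶠ j : A.nonarchAbsVal, lh (w j) ![1, algebraMap E Ω y] =
        ∑ᶠ v : A.nonarchAbsVal, Real.posLog (v.val y) := by
      refine finsum_congr (fun j => ?_)
      rw [hp, hext, Real.posLog_eq_log_max_one (AbsoluteValue.nonneg _ _), max_comm]
    exact congrArg₂ (· + ·) h1 h2

end Pool.Agent.Lib.MP_16285c_agX.HS
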