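import Pool.Agent.Lib.MP_16285c_agX.T3.HDefs
import Pool.Agent.Lib.MP_16285c_ag.Spec

/-!
# Absolute heights: statements (section HS of ZD3X, architect helper63)

TARGET: `StmtHSup` of `T3/HDefs.lean`. METHOD. `Ω` is algebraically closed and algebraic over `E`, of characteristic `0`, `G = Ω ≃ₐ[E] Ω`. `PlF E Ω` is a family of absolute values of `Ω` extending
the absolute values of `E`, `hh Q a` the sum of the local heights `lh w a = log (max |a_k|)`; the height of a tuple is the mean of `hh Q (g⁻¹ a)` over `g : G` (Haar measure of the compact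
group `G`: `Mn`), which makes the product formula true for all elements of `Ω`.

RULES. File `HS/X.lean`, `theorem tX : StmtX` or `StmtY → StmtX` in the namespace `Pool.Agent.Lib.MP_16285c_agX.HS`, auxiliary lemmas private. Every statement is a `Prop` with its proof in the docstring.
Conventions of Lean used here: `⨆` of an empty family of reals is `0`, `Real.log 0 = 0`; so `lh w 0 = 0`.
-/

set_option autoImplicit false

namespace Pool.Agent.Lib.MP_16285c_agX.HS

open Pool.Agent.Lib.MP_16285c_ag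

/-- The local height of a tuple. -/
noncomputable def lh {Ω : Type} [Field Ω] (w : AbsoluteValue Ω ℝ) {ι : Type} (a : ι → Ω) : ℝ :=
  Real.log (⨆ k, w (a k))

/-- The absolute value of a sum of `n` terms is at most `c n` times the maximum. -/
def Trn {Ω : Type} [Field Ω] (w : AbsoluteValue Ω ℝ) (c : ℕ → ℝ) : Prop :=
  (∀ n, 1 ≤ c n) ∧ ∀ (ι : Type) [Fintype ι] (x : ι → Ω), w (∑ k, x k) ≤ c (Fintype.card ι) * ⨆ k, w (x k)

/-- (L0) PROOF. Archimedean: `w (∑ x k) ≤ ∑ w (x k) ≤ n * sup` (`AbsoluteValue.sum_le`, `Finset.sum_le_card_nsmul`, `le_ciSup`). Nonarchimedean: `IsNonarchimedean.finset_image_add_of_nonempty` (for nonempty `ι`). -/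
def StmtTrn : Prop :=
  ∀ (Ω : Type) [Field Ω] (w : AbsoluteValue Ω ℝ),
    Trn w (fun n => max (n : ℝ) 1) ∧ (IsNonarchimedean w → Trn w fun _ => 1)

/-- (L1) Local heights, first part. PROOF. For a finite index type the supremum is attained (`exists_eq_ciSup_of_finite`), it is `0` exactly for `a = 0`. (comp) `sup (a ∘ e) ≤ sup a`, the left side positive.
(tens) the supremum of the products is the product of the suprema (of nonnegative numbers). (pow) the same for powers; for `m = 0` both sides are `0`. (one) the supremum is `0` or `1`. (pair) `Fin 2`. -/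
def StmtLA : Prop :=
  ∀ (Ω : Type) [Field Ω] (w : AbsoluteValue Ω ℝ),
    (∀ (ι : Type) [Finite ι], lh w (0 : ι → Ω) = 0) ∧
    (∀ (ι κ : Type) [Finite ι] [Finite κ] (e : κ → ι) (a : ι → Ω), a ∘ e ≠ 0 → lh w (a ∘ e) ≤ lh w a) ∧
    (∀ (ι κ : Type) [Finite ι] [Finite κ] (a : ι → Ω) (b : κ → Ω), a ≠ 0 → b ≠ 0 →
      lh w (fun t : ι × κ => a t.1 * b t.2) = lh w a + lh w b) ∧
    (∀ (ι : Type) [Finite ι] (a : ι → Ω) (m : ℕ), lh w (fun i => a i ^ m) = m * lh w a) ∧
    (∀ (ι : Type) [Finite ι] (a : ι → Ω), (∀ k, a k = 0 ∨ w (a k) = 1) → lh w a = 0) ∧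
    ∀ u : Ω, lh w ![1, u] = Real.log (max (w u) 1)

/-- (L2) Local heights, linear maps and roots. PROOF. (lin) Every term of every sum is at most `sup A * sup a`; `Trn`; logarithms (the left side is positive as the tuple is not `0`; so `A` and `a` are not `0`).
(root) Let `m = sup (w (c i)) > 0`. If `w u ≤ 1`: `w (c d) * 1 ≤ m`. If `1 < w u`: `d ≥ 1`, `c d * u ^ d = - ∑ i < d, c i * u ^ i`, so `w (c d) * w u ^ d ≤ K d * m * w u ^ (d - 1)` (`Trn`; every term is at most `m * w u ^ (d - 1)`), so `w (c d) * w u ≤ K d * m`. In both cases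
`w (c d) * max (w u) 1 ≤ K d * m`; logarithms, `StmtLA` (pair). -/
def StmtLB : Prop :=
  ∀ (Ω : Type) [Field Ω] (w : AbsoluteValue Ω ℝ) (K : ℕ → ℝ), Trn w K →
    (∀ (ι κ : Type) [Fintype ι] [Finite κ] (A : κ → ι → Ω) (a : ι → Ω), (fun j => ∑ i, A j i * a i) ≠ 0 →
      lh w (fun j => ∑ i, A j i * a i) ≤ lh w (fun t : κ × ι => A t.1 t.2) + lh w a + Real.log (K (Fintype.card ι))) ∧
    ∀ (d : ℕ) (c : Fin (d + 1) → Ω) (u : Ω), c (Fin.last d) ≠ 0 → ∑ i, c i * u ^ (i : ℕ) = 0 →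
      lh w ![1, u] + Real.log (w (c (Fin.last d))) ≤ lh w c + Real.log (K d)

/-- The tuple of the coefficients of the monic polynomial with the roots `u`. -/
noncomputable def cf {Ω : Type} [Field Ω] {d : ℕ} (u : Fin d → Ω) (i : Fin (d + 1)) : Ω :=
  (∏ j, (Polynomial.X - Polynomial.C (u j)) : Polynomial Ω).coeff i

/-- (L3) Local heights, coefficients. PROOF. For a polynomial `P` let `m(P)` be the maximum of the `w (P.coeff i)`, `i : ℕ` (finitely many). The coefficients of `P * (X - C u)` are `P.coeff (i - 1) - u * P.coeff i`, sums of two terms of absolute value at most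
`m(P) * max (w u) 1`: `m(P * (X - C u)) ≤ K 2 * m(P) * max (w u) 1`. Induction on `d` (`Fin.prod_univ_castSucc`): all coefficients of the product have absolute value at most `∏ j, (K 2 * max (w (u j)) 1)`. The leading coefficient is `1`, so the supremum is positive; logarithms (`Real.log_prod`), `StmtLA` (pair). -/
def StmtLC : Prop :=
  ∀ (Ω : Type) [Field Ω] (w : AbsoluteValue Ω ℝ) (K : ℕ → ℝ), Trn w K → ∀ (d : ℕ) (u : Fin d → Ω),
    lh w (cf u) ≤ ∑ j, lh w ![1, u j] + d * Real.log (K 2)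

/-- A family of absolute values of `Ω`, finitely many archimedean ones (`w`) and nonarchimedean ones (`v`), with finiteness and the product formula for the elements of `E`. -/
structure PlF (E Ω : Type) [Field E] [Field Ω] [Algebra E Ω] where
  I : Type
  fI : Fintype I
  w : I → AbsoluteValue Ω ℝ
  J : Type
  v : J → AbsoluteValue Ω ℝ
  na : ∀ j, IsNonarchimedean (v j)
  fin : ∀ x : Ω, x ≠ 0 → {j | ∃ g : Ω ≃ₐ[E] Ω, v j (g x) ≠ 1}.Finite
  pf : ∀ c : E, c ≠ 0 → ∑ i, Real.log (w i (algebraMap E Ω c)) + ∑ᶠ j, Real.log (v j (algebraMap E Ω c)) = 0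

attribute [instance] PlF.fI

section

variable {E Ω : Type} [Field E] [Field Ω] [Algebra E Ω]

/-- The sum of the local heights. -/
noncomputable def hh (Q : PlF E Ω) {ι : Type} (a : ι → Ω) : ℝ := ∑ i, lh (Q.w i) a + ∑ᶠ j, lh (Q.v j) a

end

/-- (G1) Finiteness. PROOF. Outside the union of the finite sets `Q.fin (a k)`, `a k ≠ 0`, all `v j (g (a k))` are `0` or `1`: `StmtLA` (one). -/
def StmtFs : Prop :=
  ∀ (E Ω : Type) [Field E] [Field Ω] [Algebra E Ω] (Q : PlF E Ω) (ι : Type) [Finite ι] (a : ι → Ω),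
    {j | ∃ g : Ω ≃ₐ[E] Ω, lh (Q.v j) (fun k => g (a k)) ≠ 0}.Finite

/-- (G2) The sum of the local heights, first part. PROOF (uses `StmtFs` with `g = 1` for the finiteness of supports, `StmtLA`). Termwise: `finsum_add_distrib`, `mul_finsum` or `smul_finsum`, `finsum_le_finsum` (or pass to a finite sum over the union of the supports: `finsum_eq_sum_of_support_subset`). -/
def StmtGA : Prop :=
  ∀ (E Ω : Type) [Field E] [Field Ω] [Algebra E Ω] (Q : PlF E Ω),
    (∀ (ι : Type) [Finite ι], hh Q (0 : ι → Ω) = 0) ∧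
    (∀ (ι κ : Type) [Finite ι] [Finite κ] (e : κ → ι) (a : ι → Ω), a ∘ e ≠ 0 → hh Q (a ∘ e) ≤ hh Q a) ∧
    (∀ (ι κ : Type) [Finite ι] [Finite κ] (a : ι → Ω) (b : κ → Ω), a ≠ 0 → b ≠ 0 →
      hh Q (fun t : ι × κ => a t.1 * b t.2) = hh Q a + hh Q b) ∧
    (∀ (ι : Type) [Finite ι] (a : ι → Ω) (m : ℕ), hh Q (fun i => a i ^ m) = m * hh Q a) ∧
    (∀ c : Ω, c ≠ 0 → ∀ (ι : Type) [Finite ι] (a : ι → Ω), a ≠ 0 → hh Q (c • a) = hh Q (fun _ : Unit => c) + hh Q a) ∧
    ∀ c : E, c ≠ 0 → hh Q (fun _ : Unit => algebraMap E Ω c) = 0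

/-- (G3) The sum of the local heights, second part. PROOF (uses `StmtFs`, `StmtTrn`, `StmtLB`, `StmtLC`). Termwise with `K n = max n 1` for the archimedean `w i` and `K n = 1` (`Real.log 1 = 0`) for the `v j`; `lh w (fun _ : Unit => c) = Real.log (w c)`. -/
def StmtGB : Prop :=
  ∀ (E Ω : Type) [Field E] [Field Ω] [Algebra E Ω] (Q : PlF E Ω),
    (∀ (ι κ : Type) [Fintype ι] [Finite κ] (A : κ → ι → Ω) (a : ι → Ω), (fun j => ∑ i, A j i * a i) ≠ 0 →
      hh Q (fun j => ∑ i, A j i * a i) ≤ hh Q (fun t : κ × ι => A t.1 t.2) + hh Q a +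
        Fintype.card Q.I * Real.log (max (Fintype.card ι : ℝ) 1)) ∧
    (∀ (d : ℕ) (c : Fin (d + 1) → Ω) (u : Ω), c (Fin.last d) ≠ 0 → ∑ i, c i * u ^ (i : ℕ) = 0 →
      hh Q ![1, u] + hh Q (fun _ : Unit => c (Fin.last d)) ≤ hh Q c + Fintype.card Q.I * Real.log (max (d : ℝ) 1)) ∧
    ∀ (d : ℕ) (u : Fin d → Ω), hh Q (cf u) ≤ ∑ j, hh Q ![1, u j] + Fintype.card Q.I * (d * Real.log 2)

/-- An invariant mean on the functions on the Galois group which depend only on the image of a finite tuple. -/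
structure Mn (E Ω : Type) [Field E] [Field Ω] [Algebra E Ω] where
  C : ((Ω ≃ₐ[E] Ω) → ℝ) → Prop
  M : ((Ω ≃ₐ[E] Ω) → ℝ) → ℝ
  tup : ∀ (ι : Type) [Finite ι] (b : ι → Ω) (φ : (ι → Ω) → ℝ), C fun g => φ fun k => g⁻¹ (b k)
  cadd : ∀ f f', C f → C f' → C fun g => f g + f' g
  add : ∀ f f', C f → C f' → M (fun g => f g + f' g) = M f + M f'
  mono : ∀ f f', C f → C f' → (∀ g, f g ≤ f' g) → M f ≤ M f'
  cst : ∀ r : ℝ, C (fun _ => r) ∧ M (fun _ => r) = r
  inv : ∀ f, C f → ∀ g₀ : Ω ≃ₐ[E] Ω, C (fun g => f (g₀⁻¹ * g)) ∧ M (fun g => f (g₀⁻¹ * g)) = M f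

/-- (M1) The Haar measure. PROOF. `G = Ω ≃ₐ[E] Ω` with the Krull topology is a compact topological group (`krullTopology`, `Mathlib/FieldTheory/Galois/Profinite.lean`: `CompactSpace`); let it carry its Borel sets (`borel`), `μ = haarMeasure ⊤` (`PositiveCompacts`, `haarMeasure_self`: total mass `1`), `C = Continuous`, `M f = ∫ g, f g ∂μ`.
`tup`: `g ↦ φ (g⁻¹ b)` is locally constant: it is constant on the cosets `g₀ * U`, `U` the (open) fixing subgroup of the finite extension `E(b)` (`IntermediateField.fixingSubgroup_isOpen`, `IsLocallyConstant.continuous`). `add`, `mono`: continuous functions on a compact space are integrable (`Continuous.integrable_of_hasCompactSupport`, `isFiniteMeasure`). `inv`: `integral_mul_left_eq_self`. -/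
def StmtMean : Prop :=
  ∀ (E Ω : Type) [Field E] [Field Ω] [Algebra E Ω] [IsGalois E Ω], Nonempty (Mn E Ω)

/-- (M2) The product formula. PROOF (uses `StmtGA`). Let `R` be the finite set of the roots of `minpoly E c` in `Ω` (it splits: `Normal`), `P = ∏ b ∈ R, b`. `P ≠ 0`, and `P = algebraMap E Ω e`: it is fixed by `G` (`IsGalois.mem_bot_iff_fixed` or: it is, up to sign, the constant coefficient of the minimal polynomial, which is separable). For `g : G`:
`∑ b ∈ R, hh (g⁻¹ b) = hh (g⁻¹ P) = hh (algebraMap e) = 0` (one-element tuples; the fifth part of `StmtGA` gives `hh (x * y) = hh x + hh y` on one-element tuples; the sixth part). Apply `M`: `∑ b ∈ R, M (hh (g⁻¹ b)) = 0`. For `b ∈ R` there is `g₀ : G` with `g₀ c = b` (`Normal`: `exists_algHom_of_splits_of_aeval`, `isConjRoot_iff_exists_algEquiv` or the like),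
so `M (hh (g⁻¹ b)) = M (hh ((g₀⁻¹ g)⁻¹ c)) = M (hh (g⁻¹ c))` by `inv`. So `|R| * M (hh (g⁻¹ c)) = 0`, and `R` is not empty. -/
def StmtPF : Prop :=
  ∀ (E Ω : Type) [Field E] [Field Ω] [Algebra E Ω] [IsGalois E Ω] (Q : PlF E Ω) (μ : Mn E Ω) (c : Ω), c ≠ 0 →
    μ.M (fun g => hh Q fun _ : Unit => g⁻¹ c) = 0

/-- (H) The height. PROOF (uses `StmtGA`, `StmtGB`, `StmtPF`, `StmtMean`). `H a = M (fun g => hh Q (fun k => g⁻¹ (a k)))`. `zero`. For `c ≠ 0` let `(1)`: `H (one-element tuple c) = 0` (`StmtPF`). `smul`: `StmtGA` (5), `add`, (1). `comp`: if `a ∘ e = 0` then `0 ≤ H a`; otherwise `mono`. `nonneg`: `a = 0` or `H a ≥ H (a k) = 0`, `a k ≠ 0` (comp with `Unit → ι`). `tens`: `add`. `pow`: `M (m f) = m M f` by induction from `add`, `cst`.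
`lin`: if the image is `0` then its height is `0 ≤ H a`; otherwise `≤ H A + H a + const`, `A` as a tuple; take `C = max 0 (H A + const)` or `|H A| + const`. `root`: `H (1, u) + H (c d) ≤ H c + const` and (1); `g⁻¹` applied to the equation. `coef`: `g⁻¹ (cf u i) = cf (g⁻¹ u) i` (`Polynomial.coeff_map`, `Polynomial.map_prod`). Invariance: `inv`. The last part: `g⁻¹ (algebraMap y) = algebraMap y`, `cst`. -/
def StmtHt : Prop :=
  ∀ (E Ω : Type) [Field E] [Field Ω] [Algebra E Ω] [IsGalois E Ω] (Q : PlF E Ω), ∃ h : HtF Ω,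
    (∀ (g : Ω ≃ₐ[E] Ω) (ι : Type) [Finite ι] (a : ι → Ω), h.H (fun k => g (a k)) = h.H a) ∧
    ∀ y : E, h.H ![1, algebraMap E Ω y] = hh Q ![1, algebraMap E Ω y]

/-- (S1) Places. PROOF. `J = A.nonarchAbsVal`; `v j` an extension of `j` (`abvExtP` of `Lib/MP_16285c_ag/AbvExt.lean`). `I = A.archAbsVal.ToType` (or `Fin` of the length of a list), `w i x = ‖σ x‖` for the extension `Ω →ₐ[E] ℂ` of the given embedding (`ℂ` as an `E`-algebra, `IsAlgClosed.lift`). `fin`: as `finite_ne`, `finite_gt` in `Lib/MP_16285c_ag/AdmExt.lean` (there for finite Galois extensions; use `le_one_of_coeff`,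
`minpoly.algEquiv_eq`, `Algebra.IsIntegral.isIntegral`). `pf`: the logarithm of `A.product_formula` (`Real.log_finprod` or a finite product over the support; `Multiset.map_univ_coe`, `Finset.prod_map_val`). The last part: `StmtLA` (pair), `Height.logHeight₁_eq_log_mulHeight₁`, `Height.mulHeight₁_eq`. -/
def StmtPlf : Prop :=
  ∀ (E Ω : Type) [Field E] [Field Ω] [Algebra E Ω] [Algebra.IsAlgebraic E Ω] (A : Height.AdmissibleAbsValues E),
    (∀ v ∈ A.archAbsVal, ∃ σ : E →+* ℂ, ∀ x, v x = ‖σ x‖) →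
    ∃ Q : PlF E Ω, ∀ y : E, hh Q ![1, algebraMap E Ω y] = @Height.logHeight₁ E _ A y

/-- (S2) Extension of embeddings. PROOF. `Ω` is algebraic over `E`, so over the subfield `ι(F)`, which contains `E₀ = ` the image of `E`. `ι' ∘ ι⁻¹ : ι(F) → Ω` extends to `Ω → Ω` (`IsAlgClosed.lift` for `Ω` over `F` via `ι` into `Ω` as an `F`-algebra via `ι'`), which is the identity on `E₀` and so an `E`-algebra homomorphism, bijective (`Algebra.IsAlgebraic.algHom_bijective`). -/
def StmtLft : Prop :=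
  ∀ (E Ω F : Type) [Field E] [Field Ω] [IsAlgClosed Ω] [Algebra E Ω] [Algebra.IsAlgebraic E Ω] [Field F] (ι ι' : F →+* Ω),
    (∀ x : E, ∃ y : F, ι y = algebraMap E Ω x ∧ ι' y = algebraMap E Ω x) →
    ∃ g : Ω ≃ₐ[E] Ω, ∀ y : F, g (ι y) = ι' y

/-- (S3) Heights in `k` from absolute values of `E`. PROOF (uses `StmtHt`, `StmtPlf`, `StmtLft`). `Ω` = the elements of `k` algebraic over `j.fieldRange`: `algebraicClosure j.fieldRange k` as a subfield (`algebraicClosure.isAlgClosure` or the like: it is algebraically closed), `Algebra E Ω` by `j`; `IsGalois E Ω` (algebraically closed, so normal; characteristic `0`). Third line: `StmtLft` and the first part of `StmtHt`. -/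
def StmtBase : Prop :=
  ∀ (k : Type) [Field k] [IsAlgClosed k] [CharZero k] (E : Type) [Field E] (j : E →+* k) (A : Height.AdmissibleAbsValues E),
    (∀ v ∈ A.archAbsVal, ∃ σ : E →+* ℂ, ∀ x, v x = ‖σ x‖) →
    ∃ (Ω : Subfield k) (h : HtF Ω), j.fieldRange ≤ Ω ∧ (∀ x ∈ Ω, IsAlgebraic j.fieldRange x) ∧
      (∀ x : k, IsAlgebraic j.fieldRange x → x ∈ Ω) ∧
      (∀ (F : Type) [Field F] (ι ι' : F →+* Ω), (∀ x ∈ j.fieldRange, ∃ y : F, (ι y : k) = x ∧ (ι' y : k) = x) →
        ∀ (m : Type) [Finite m] (a : m → F), h.H (fun i => ι (a i)) = h.H (fun i => ι' (a i))) ∧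
      ∀ (y : E) (z : Ω), (z : k) = j y → h.H ![1, z] = @Height.logHeight₁ E _ A y

/-- (S4) A transcendence basis. PROOF. `B ⊆ S ∪ {t}`, `t ∈ B`, a transcendence basis over `ℚ` of the subfield of the elements of `k` algebraic over `ℚ(S, t)` (`exists_isTranscendenceBasis_between`, applied to `{t} ⊆ S ∪ {t}` in that subfield); `B` is finite. `F = Subfield.closure (B \ {t})`; `t` is transcendental over `F`; `j : RatFunc F → k`, `X ↦ t` (`RatFunc.liftRingHom` or `liftAlgHom` of `Polynomial.aeval t`), its range is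
`Subfield.closure B`. Compare `trans` in `Lib/MP_16285c_agZ/Sup.lean` (there with an infinite basis). -/
def StmtTrs : Prop :=
  ∀ (k : Type) [Field k] [CharZero k] (t : k), Transcendental ℚ t → ∀ S : Finset k,
    ∃ (F : Type) (_ : Field F) (j : RatFunc F →+* k), j RatFunc.X = t ∧
      (∃ S₀ : Finset k, Subfield.closure (S₀ : Set k) = j.fieldRange) ∧ ∀ s ∈ S, IsAlgebraic j.fieldRange s

/-- The conclusion of `StmtHSup`. -/
def Sup (k : Type) [Field k] (V V' : ValuationSubring k) (p p' : ℕ) (S : Finset k) : Prop :=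
  ∃ (E₀ Ω : Subfield k) (h : HtF Ω) (t : k),
    (∃ S₀ : Finset k, Subfield.closure (S₀ : Set k) = E₀) ∧ E₀ ≤ Ω ∧ (S : Set k) ⊆ Ω ∧
    (∀ x ∈ Ω, IsAlgebraic E₀ x) ∧ (∀ x : k, IsAlgebraic E₀ x → x ∈ Ω) ∧
    (∀ (F : Type) [Field F] (ι ι' : F →+* Ω),
      (∀ x ∈ E₀, ∃ y : F, (ι y : k) = x ∧ (ι' y : k) = x) →
      ∀ (m : Type) [Finite m] (a : m → F), h.H (fun i => ι (a i)) = h.H (fun i => ι' (a i))) ∧
    t ≠ 0 ∧ t ∈ E₀ ∧ t ∈ V ∧ t ∈ V' ∧
    ∀ B : ℝ, ∃ j₀ : ℕ, ∀ j, j₀ ≤ j → ∀ s : ℤ, s ≠ 0 → ∀ y : Ω, (y : k) = p * p' * t ^ j * s →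
      B < h.H ![1, y]

/-- (S5) `k` algebraic over `ℚ`. PROOF (uses `StmtBase`). `E = Subfield.closure ∅` (the prime field; finite over `ℚ`: it is the range of `ℚ → k`, so a number field), `A = NumberField.instAdmissibleAbsValues`, archimedean absolute values: `NumberField.InfinitePlace` (`‖embedding x‖`). `t = p * p'`. Heights: `nf` in `Lib/MP_16285c_agN/T3/XSup.lean`. Or `E = ℚ` and `j = algebraMap ℚ k`, `j.fieldRange = Subfield.closure ∅`. -/
def StmtSupN : Prop :=
  ∀ (k : Type) [Field k] [IsAlgClosed k] [CharZero k] (V V' : ValuationSubring k) (p p' : ℕ), p.Prime → p'.Prime →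
    2 < p → 2 < p' → CharP (IsLocalRing.ResidueField V) p → CharP (IsLocalRing.ResidueField V') p' →
    Algebra.IsAlgebraic ℚ k → ∀ S : Finset k, Sup k V V' p p' S

/-- (S6) `k` not algebraic over `ℚ`. PROOF (uses `StmtBase`, `StmtTrs`). `t` from `SupM.exists_t` (`Lib/MP_16285c_agZ/Sup.lean`), `F, j` from `StmtTrs`, `A` from `admRatP F` (`archAbsVal = 0`: the hypothesis of `StmtBase` is empty). Heights of `j (N * X ^ i)`: as in `tXSup` of `Lib/MP_16285c_agN/T3/XSup.lean` (second case; `h_int`), in `RatFunc F`. -/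
def StmtSupF : Prop :=
  ∀ (k : Type) [Field k] [IsAlgClosed k] [CharZero k] (V V' : ValuationSubring k) (p p' : ℕ), p.Prime → p'.Prime →
    2 < p → 2 < p' → CharP (IsLocalRing.ResidueField V) p → CharP (IsLocalRing.ResidueField V') p' →
    ¬ Algebra.IsAlgebraic ℚ k → ∀ S : Finset k, Sup k V V' p p' S

end Pool.Agent.Lib.MP_16285c_agX.HS
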