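import Pool.Agent.Lib.MP_16285c_agX.HS.Spec

/-!
# Absolute heights: absolute values of sums
-/

set_option autoImplicit false

namespace Pool.Agent.Lib.MP_16285c_agX.HS

open Pool.Agent.Lib.MP_16285c_ag

theorem tTrn : StmtTrn := by
  intro Ω _ w
  constructor
  · refine ⟨fun n => le_max_right _ _, ?_⟩
    intro ι _ x
    have h0 : 0 ≤ ⨆ k, w (x k) := Real.iSup_nonneg fun k => w.nonneg _
    have h1 : w (∑ k, x k) ≤ ∑ k, w (x k) := w.sum_le _ _
    have h2 : ∑ k, w (x k) ≤ (Fintype.card ι : ℝ) * ⨆ k, w (x k) := by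
      have h3 := Finset.sum_le_card_nsmul Finset.univ (fun k => w (x k)) (⨆ k, w (x k))
        fun k _ => le_ciSup (Set.finite_range fun k => w (x k)).bddAbove k
      rwa [nsmul_eq_mul, Finset.card_univ] at h3
    exact h1.trans (h2.trans (mul_le_mul_of_nonneg_right (le_max_left _ _) h0))
  · intro hna
    refine ⟨fun n => le_refl 1, ?_⟩
    intro ι _ x
    rw [one_mul]
    rcases isEmpty_or_nonempty ι with hι | hι
    · rw [Finset.univ_eq_empty, Finset.sum_empty, map_zero]
      exact Real.iSup_nonneg fun k => w.nonneg _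
    · obtain ⟨i, -, hi⟩ := hna.finset_image_add_of_nonempty x (Finset.univ_nonempty (α := ι))
      exact hi.trans (le_ciSup (Set.finite_range fun k => w (x k)).bddAbove i)

end Pool.Agent.Lib.MP_16285c_agX.HS
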